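import Mathlib
import Pool.Agent.H373R2.T7.BilE

/-! Bilinear sums over families of shifts of nearly minimal energy, for functions with small
exponential sums at one scale. -/

namespace Pool.Agent.Y871.PT
open Finset Polynomial
open Pool.Agent.H373R2.T7
open Pool.Agent.H807R2.Dav

set_option maxHeartbeats 1000000 in
theorem fam (p B C U : ℕ) : ∃ U' N0 : ℕ, ∀ N : ℕ, N0 ≤ N → ∀ (f : ℕ → ℂ) (H : ℕ), H ≤ B * N →
    (∀ n, ‖f n‖ ≤ 1) → (∀ α : ℝ, ‖∑ n ∈ Icc 1 H, f n * ee ((n : ℝ) * α)‖ ≤ N / Real.log N ^ U') →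
    ∀ (y : ℕ) (s : ℕ → ℤ), (∀ m ∈ Icc 1 y, |s m| ≤ B * N) →
    (energy p y s : ℝ) * N ≤ Real.log N ^ C * (y : ℝ) ^ (2 * p) →
    ∀ A : ℕ, A ≤ B * N → ∀ G c : ℕ → ℂ, (∀ a, ‖G a‖ ≤ 1) → (∀ m, ‖c m‖ ≤ 1) →
    ‖∑ a ∈ Icc 1 A, ∑ m ∈ Icc 1 y, G a * c m * fz f H (a + s m)‖ ≤ N * y / Real.log N ^ U := by
  set K : ℕ := (4 * p + 5) * (2 * (B + 1) ^ 2) + 2 * (B + 1) with hK
  set U' : ℕ := C + 2 * p * (U + 1) + U + 1 with hU'
  obtain ⟨m3, h3⟩ := ev_L' (K + 1)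
  refine ⟨U', max m3 3, fun N hN f H hH hb hsup y s hs hE A hA G c hG hc => ?_⟩
  have hL := h3 N (le_trans (le_max_left _ _) hN)
  have hN3 : 3 ≤ N := le_trans (le_max_right _ _) hN
  have hNr : (3 : ℝ) ≤ N := by exact_mod_cast hN3
  have hN0 : (0 : ℝ) < N := by linarith
  set L := Real.log N with hLd
  have hK0 : (0 : ℝ) ≤ K := Nat.cast_nonneg _
  have hLge1 : 1 ≤ L := by linarith
  have hL0 : 0 < L := by linarith
  rcases Nat.eq_zero_or_pos y with hx | hx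
  · rw [hx]; simp
  have hx0 : (0 : ℝ) < y := by exact_mod_cast hx
  set B1 : ℕ := B + 1 with hB1
  have hB1pos : 1 ≤ B1 := by omega
  set M : ℕ := (4 * p + 5) * (B1 * N) with hM
  have hBN : B * N ≤ B1 * N := Nat.mul_le_mul_right _ (by omega)
  have hB1N : 1 ≤ B1 * N := Nat.mul_pos hB1pos (by omega)
  have hM5 : 5 * (B1 * N) ≤ M := by
    rw [hM]; exact Nat.mul_le_mul_right _ (by omega)
  have hM1 : 1 ≤ M := by omega
  have hHM : H ≤ M := by omega
  have hHB : H ≤ B1 * N := by omega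
  have hMr : (M : ℝ) = (4 * p + 5) * (B1 * N) := by rw [hM]; push_cast; ring
  have hcond : ∀ a ∈ Icc 1 A, ∀ m ∈ Icc 1 y, ∀ n ∈ Icc 1 H, |(a : ℤ) + s m - n| < M := by
    intro a ha m hm n hn
    have h4 := abs_le.1 (hs m hm)
    rw [mem_Icc] at ha hn
    have h5 : (a : ℤ) ≤ B * N := by exact_mod_cast ha.2.trans hA
    have h6 : (n : ℤ) ≤ B1 * N := by exact_mod_cast hn.2.trans hHB
    have h7 : (5 : ℤ) * (B1 * N) ≤ M := by exact_mod_cast hM5
    have h8 : (B : ℤ) * N ≤ B1 * N := by exact_mod_cast hBN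
    have h9 : (1 : ℤ) ≤ B1 * N := by exact_mod_cast hB1N
    have h10 : (0 : ℤ) ≤ a := by positivity
    have h11 : (0 : ℤ) ≤ n := by positivity
    rw [abs_lt]
    constructor <;> linarith [h4.1, h4.2]
  have hAM : A ≤ M := hA.trans (by omega)
  have hmomE := moment_energy p y s M (B * N) hM1 (fun m hm => by
    have := hs m hm
    push_cast
    exact this) (by
    have h4 : 2 * p * (B * N) ≤ 2 * p * (B1 * N) := Nat.mul_le_mul_left _ hBN
    have h5 : 2 * p * (B1 * N) < (4 * p + 5) * (B1 * N) := Nat.mul_lt_mul_of_pos_right (by omega) hB1N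
    omega)
  set C0 : ℝ := (4 * p + 5) * B1 * L ^ C with hC0
  have hmom : ∑ t ∈ range M, (‖∑ m ∈ Icc 1 y, ee ((t : ℝ) * ((s m : ℝ) / M))‖ / y) ^ (2 * p) ≤ C0 := by
    have h2 : ∑ t ∈ range M, (‖∑ m ∈ Icc 1 y, ee ((t : ℝ) * ((s m : ℝ) / M))‖ / y) ^ (2 * p) =
        (M * energy p y s) / (y : ℝ) ^ (2 * p) := by
      rw [← hmomE, sum_div]
      exact sum_congr rfl fun t _ => div_pow _ _ _
    rw [h2, div_le_iff₀ (by positivity), hMr]
    calc (4 * (p : ℝ) + 5) * (B1 * N) * energy p y s = (4 * p + 5) * B1 * (energy p y s * N) := by ring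
      _ ≤ (4 * p + 5) * B1 * (L ^ C * (y : ℝ) ^ (2 * p)) := mul_le_mul_of_nonneg_left hE (by positivity)
      _ = _ := by rw [hC0]; ring
  have hfs : ∑ n ∈ Icc 1 H, ‖f n‖ ^ 2 ≤ H := by
    have h4 : ∀ n ∈ Icc 1 H, ‖f n‖ ^ 2 ≤ 1 := fun n _ => pow_le_one₀ (norm_nonneg _) (hb n)
    refine (sum_le_sum h4).trans ?_
    rw [sum_const, Nat.card_Icc, nsmul_eq_mul]
    simp
  have hη : 0 < 1 / L ^ (U + 1) := by positivity
  have key := bil_main A H y M hM1 f G c s (N / L ^ U') (1 / L ^ (U + 1)) p C0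
    H hcond hAM hHM hx hsup hG hc hmom hfs hη
  refine key.trans ?_
  have hAr : (A : ℝ) ≤ B1 * N := by exact_mod_cast hA.trans hBN
  have hHr : (H : ℝ) ≤ B1 * N := by exact_mod_cast hHB
  have hB1r : (1 : ℝ) ≤ B1 := by exact_mod_cast hB1pos
  have hA0 : (0 : ℝ) ≤ A := Nat.cast_nonneg _
  have t1 : C0 / (1 / L ^ (U + 1)) ^ (2 * p) * (N / L ^ U') * A * y / M ≤
      ((4 * p + 5) * (2 * B1 ^ 2) / L) * (N * y / L ^ U) := by
    have h4 : C0 / (1 / L ^ (U + 1)) ^ (2 * p) * (N / L ^ U') = (4 * p + 5) * B1 * N / L ^ (U + 1) := by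
      rw [div_pow, one_pow, ← pow_mul, hU', hC0]
      have e : L ^ (C + 2 * p * (U + 1) + U + 1) = L ^ C * L ^ ((U + 1) * (2 * p)) * L ^ (U + 1) := by
        rw [← pow_add, ← pow_add]; congr 1; ring
      rw [e]
      field_simp
    rw [h4]
    have hAM' : (A : ℝ) ≤ M := by exact_mod_cast hAM
    have hM0 : (0 : ℝ) < M := by exact_mod_cast hM1
    have h5 : (4 * (p : ℝ) + 5) * B1 * N / L ^ (U + 1) * A * y / M ≤ (4 * p + 5) * B1 * N / L ^ (U + 1) * y := by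
      rw [div_le_iff₀ hM0]
      have h6 : 0 ≤ (4 * (p : ℝ) + 5) * B1 * N / L ^ (U + 1) * y := by positivity
      calc (4 * (p : ℝ) + 5) * B1 * N / L ^ (U + 1) * A * y = ((4 * (p : ℝ) + 5) * B1 * N / L ^ (U + 1) * y) * A := by ring
        _ ≤ _ := mul_le_mul_of_nonneg_left hAM' h6
    refine h5.trans ?_
    have h6 : (4 * (p : ℝ) + 5) * B1 * N / L ^ (U + 1) * y = ((4 * p + 5) * B1 / L) * (N * y / L ^ U) := by
      rw [pow_succ]
      field_simp
    rw [h6]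
    apply mul_le_mul_of_nonneg_right _ (by positivity)
    apply div_le_div_of_nonneg_right _ hL0.le
    apply mul_le_mul_of_nonneg_left _ (by positivity)
    nlinarith
  have t2 : 1 / L ^ (U + 1) * y * Real.sqrt (H * A) ≤ (2 * B1 / L) * (N * y / L ^ U) := by
    have h4 : Real.sqrt (H * A) ≤ 2 * (B1 * N) := by
      rw [Real.sqrt_le_left (by positivity)]
      have h5 : (H : ℝ) * A ≤ (B1 * N) * (B1 * N) := mul_le_mul hHr hAr hA0 (by positivity)
      have h6 : 0 ≤ (B1 : ℝ) * N := by positivity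
      nlinarith
    calc 1 / L ^ (U + 1) * y * Real.sqrt (H * A) ≤ 1 / L ^ (U + 1) * y * (2 * (B1 * N)) :=
          mul_le_mul_of_nonneg_left h4 (by positivity)
      _ = _ := by rw [pow_succ]; field_simp
  have hKr : (K : ℝ) = (4 * p + 5) * (2 * B1 ^ 2) + 2 * B1 := by rw [hK, hB1]; push_cast; ring
  calc C0 / (1 / L ^ (U + 1)) ^ (2 * p) * (N / L ^ U') * A * y / M + 1 / L ^ (U + 1) * y * Real.sqrt (H * A) ≤
        ((4 * p + 5) * (2 * B1 ^ 2) / L) * (N * y / L ^ U) + (2 * B1 / L) * (N * y / L ^ U) := add_le_add t1 t2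
    _ = (K / L) * (N * y / L ^ U) := by rw [hKr]; ring
    _ ≤ 1 * (N * y / L ^ U) := by
        apply mul_le_mul_of_nonneg_right _ (by positivity)
        rw [div_le_one hL0]
        linarith
    _ = _ := one_mul _

end Pool.Agent.Y871.PT
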