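import Mathlib
import Pool.Agent.Y871.PT.Fam
import Pool.Agent.H373R2.T7.BilLam

/-! The bilinear estimate for `g (k + P n) * (Λ - Λ_z) (k + P n + σ f n)` along families `k = b + s m`. -/

namespace Pool.Agent.Y871.PT
open Finset Polynomial
open Pool.Agent.H373R2.T7
open Pool.Agent.H807R2.Dav

/-- extension by zero of a function on the positive integers -/
noncomputable def gI (G : ℕ → ℝ) (k : ℤ) : ℝ := if 1 ≤ k then G k.toNat else 0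

lemma gI_lam (k : ℤ) : gI (fun n => ArithmeticFunction.vonMangoldt n) k = lamI k := rfl

lemma gI_lamz (z : ℕ) (k : ℤ) : gI (lamz z) k = lamzI z k := rfl

/-- the energy is invariant under translation -/
lemma energy_shift (p y : ℕ) (s : ℕ → ℤ) (T : ℤ) : energy p y (fun m => s m + T) = energy p y s := by
  unfold energy
  congr 1
  apply filter_congr
  intro q _
  simp only [sum_add_distrib]
  constructor <;> intro h <;> linarith

/-- the pair function, supported where `1 ≤ k + P n ≤ A` -/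
noncomputable def Dk (P f : ℤ[X]) (σ : ℤ) (z x A : ℕ) (G c : ℕ → ℝ) (k : ℤ) : ℝ :=
  ∑ n ∈ Icc 1 x, if 1 ≤ k + P.eval (n : ℤ) ∧ k + P.eval (n : ℤ) ≤ A then
    G (k + P.eval (n : ℤ)).toNat * c n * (lamI (k + P.eval (n : ℤ) + σ * f.eval (n : ℤ)) -
      lamzI z (k + P.eval (n : ℤ) + σ * f.eval (n : ℤ))) else 0

lemma reidx (A H T : ℕ) (e : ℤ) (he : |e| < T) (hH : A + 2 * T ≤ H) (φ : ℤ → ℂ) (α : ℝ) :
    ∑ j ∈ Icc 1 H, (if 1 ≤ ((j : ℤ) - T) + e ∧ ((j : ℤ) - T) + e ≤ A then φ (((j : ℤ) - T) + e) else 0) * ee ((j : ℝ) * α) =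
      ∑ a ∈ Icc 1 A, φ a * ee (((a : ℝ) - e + T) * α) := by
  have h0 := abs_lt.1 he
  have h1 : ∀ j ∈ Icc 1 H, (if 1 ≤ ((j : ℤ) - T) + e ∧ ((j : ℤ) - T) + e ≤ A then φ (((j : ℤ) - T) + e) else 0) * ee ((j : ℝ) * α) =
      if 1 ≤ ((j : ℤ) - T) + e ∧ ((j : ℤ) - T) + e ≤ A then φ (((j : ℤ) - T) + e) * ee ((j : ℝ) * α) else 0 := by
    intro j _
    split_ifs <;> simp
  rw [sum_congr rfl h1, ← sum_filter]
  refine sum_nbij' (fun j => (((j : ℤ) - T) + e).toNat) (fun a => ((a : ℤ) - e + T).toNat) ?_ ?_ ?_ ?_ ?_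
  · intro j hj
    rw [mem_filter, mem_Icc] at hj
    rw [mem_Icc]
    omega
  · intro a ha
    rw [mem_Icc] at ha
    rw [mem_filter, mem_Icc]
    omega
  · intro j hj
    rw [mem_filter, mem_Icc] at hj
    omega
  · intro a ha
    rw [mem_Icc] at ha
    omega
  · intro j hj
    rw [mem_filter, mem_Icc] at hj
    have h2 : ((((((j : ℤ) - T) + e).toNat : ℕ) : ℤ)) = ((j : ℤ) - T) + e := Int.toNat_of_nonneg (by omega)
    have h3 : ((((((j : ℤ) - T) + e).toNat : ℕ) : ℝ)) = ((j : ℝ) - T) + e := by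
      have : (((((((j : ℤ) - T) + e).toNat : ℕ) : ℤ)) : ℝ) = (((j : ℤ) - T + e : ℤ) : ℝ) := by rw [h2]
      push_cast at this
      exact this
    rw [h2, h3]
    congr 2
    ring

/-- the exponential sum of the pair function -/
lemma Dk_exp (P f : ℤ[X]) (σ : ℤ) (z x A H T : ℕ) (G c : ℕ → ℝ) (hT : ∀ n ∈ Icc 1 x, |P.eval (n : ℤ)| < T)
    (hH : A + 2 * T ≤ H) (α : ℝ) :
    ∑ j ∈ Icc 1 H, ((Dk P f σ z x A G c ((j : ℤ) - T) : ℝ) : ℂ) * ee ((j : ℝ) * α) =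
      ee ((T : ℝ) * α) * ∑ a ∈ Icc 1 A, ∑ n ∈ Icc 1 x, (((G a : ℝ) : ℂ) * ee ((a : ℝ) * α)) *
        (((c n : ℝ) : ℂ) * ee (-((P.eval (n : ℤ) : ℤ) : ℝ) * α)) *
        ((lamI (a + σ * f.eval (n : ℤ)) - lamzI z (a + σ * f.eval (n : ℤ)) : ℝ) : ℂ) := by
  unfold Dk
  have h1 : ∀ j ∈ Icc 1 H, (((∑ n ∈ Icc 1 x, if 1 ≤ ((j : ℤ) - T) + P.eval (n : ℤ) ∧ ((j : ℤ) - T) + P.eval (n : ℤ) ≤ A then
    G (((j : ℤ) - T) + P.eval (n : ℤ)).toNat * c n * (lamI (((j : ℤ) - T) + P.eval (n : ℤ) + σ * f.eval (n : ℤ)) -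
      lamzI z (((j : ℤ) - T) + P.eval (n : ℤ) + σ * f.eval (n : ℤ))) else 0 : ℝ)) : ℂ) * ee ((j : ℝ) * α) =
      ∑ n ∈ Icc 1 x, (if 1 ≤ ((j : ℤ) - T) + P.eval (n : ℤ) ∧ ((j : ℤ) - T) + P.eval (n : ℤ) ≤ A then
        (fun v : ℤ => ((G v.toNat * c n * (lamI (v + σ * f.eval (n : ℤ)) - lamzI z (v + σ * f.eval (n : ℤ))) : ℝ) : ℂ))
          (((j : ℤ) - T) + P.eval (n : ℤ)) else 0) * ee ((j : ℝ) * α) := by
    intro j _
    rw [Complex.ofReal_sum, sum_mul]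
    apply sum_congr rfl
    intro n _
    split_ifs <;> simp
  rw [sum_congr rfl h1, sum_comm]
  have h2 : ∀ n ∈ Icc 1 x, ∑ j ∈ Icc 1 H, (if 1 ≤ ((j : ℤ) - T) + P.eval (n : ℤ) ∧ ((j : ℤ) - T) + P.eval (n : ℤ) ≤ A then
        (fun v : ℤ => ((G v.toNat * c n * (lamI (v + σ * f.eval (n : ℤ)) - lamzI z (v + σ * f.eval (n : ℤ))) : ℝ) : ℂ))
          (((j : ℤ) - T) + P.eval (n : ℤ)) else 0) * ee ((j : ℝ) * α) =
      ∑ a ∈ Icc 1 A, (fun v : ℤ => ((G v.toNat * c n * (lamI (v + σ * f.eval (n : ℤ)) - lamzI z (v + σ * f.eval (n : ℤ))) : ℝ) : ℂ)) a *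
        ee (((a : ℝ) - (P.eval (n : ℤ) : ℤ) + T) * α) := fun n hn =>
    reidx A H T (P.eval (n : ℤ)) (hT n hn) hH
      (fun v : ℤ => ((G v.toNat * c n * (lamI (v + σ * f.eval (n : ℤ)) - lamzI z (v + σ * f.eval (n : ℤ))) : ℝ) : ℂ)) α
  rw [sum_congr rfl h2, sum_comm, mul_sum]
  apply sum_congr rfl
  intro a _
  rw [mul_sum]
  apply sum_congr rfl
  intro n _
  have h3 : ee (((a : ℝ) - (P.eval (n : ℤ) : ℤ) + T) * α) = ee ((T : ℝ) * α) * (ee ((a : ℝ) * α) * ee (-((P.eval (n : ℤ) : ℤ) : ℝ) * α)) := by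
    rw [← ee_add, ← ee_add]
    congr 1
    ring
  simp only [Int.toNat_natCast]
  rw [h3]
  push_cast
  ring

end Pool.Agent.Y871.PT
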