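import Mathlib
import Pool.Agent.Y871.PT.Base

/-! The bilinear estimate for `g (k + P n) * (Λ - Λ_z) (k + P n + σ f n)` along families `k = b + s m`. -/

namespace Pool.Agent.Y871.PT
open Finset Polynomial
open Pool.Agent.H373R2.T7
open Pool.Agent.H807R2.Dav

/-- size of all the arguments -/
def bd (P : ℤ[X]) (B : ℕ) : ℕ := 2 * B + cf P * B

lemma eval_le (P : ℤ[X]) (d B N x n : ℕ) (hP : P.natDegree ≤ d) (hx : x ^ d ≤ B * N) (hn : n ∈ Icc 1 x) :
    |P.eval (n : ℤ)| ≤ (cf P * B * N : ℕ) := by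
  rw [mem_Icc] at hn
  refine (abs_eval_le P n hn.1).trans ?_
  have h1 : n ^ P.natDegree ≤ B * N := by
    calc n ^ P.natDegree ≤ n ^ d := Nat.pow_le_pow_right hn.1 hP
      _ ≤ x ^ d := Nat.pow_le_pow_left hn.2 _
      _ ≤ B * N := hx
  have h2 : (n : ℤ) ^ P.natDegree ≤ ((B * N : ℕ) : ℤ) := by exact_mod_cast h1
  calc (cf P : ℤ) * (n : ℤ) ^ P.natDegree ≤ cf P * ((B * N : ℕ) : ℤ) := mul_le_mul_of_nonneg_left h2 (by positivity)
    _ = _ := by push_cast; ring

lemma lam_diff_le (z : ℕ) (w : ℤ) (L : ℝ) (hL : 1 ≤ L) (hV : (Vz z)⁻¹ ≤ L) (hw : 1 ≤ w → Real.log (w.toNat : ℝ) ≤ 2 * L) :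
    |lamI w - lamzI z w| ≤ 2 * L := by
  have h1 : 0 ≤ lamI w := lamI_nonneg w
  have h2 : 0 ≤ lamzI z w := lamzI_nonneg z w
  have h3 : lamI w ≤ 2 * L := by
    unfold lamI
    split_ifs with h
    · exact ArithmeticFunction.vonMangoldt_le_log.trans (hw h)
    · linarith
  have h4 : lamzI z w ≤ 2 * L := by
    unfold lamzI lamz
    split_ifs
    · linarith
    · linarith
    · linarith
  rw [abs_le]
  constructor <;> linarith

set_option maxHeartbeats 1000000 in
theorem pair_bil (P f : ℤ[X]) (hd : 1 ≤ f.natDegree) (hl : 0 < f.leadingCoeff) (hP : P.natDegree ≤ f.natDegree)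
    (B : ℕ) (hB : 1 ≤ B) (p C U κ : ℕ) :
    ∃ B0 : ℕ, ∀ E : ℕ, ∃ N0 : ℕ, ∀ N : ℕ, N0 ≤ N → ∀ x : ℕ, N ≤ B * x ^ f.natDegree → x ^ f.natDegree ≤ B * N →
    ∀ z : ℕ, Real.log N ^ B0 ≤ z → (z : ℝ) ≤ Real.log N ^ E → ∀ σ : ℤ, (σ = 1 ∨ σ = -1) →
    ∀ G c : ℕ → ℝ, (∀ a ∈ Icc 1 (bd P B * N), |G a| ≤ Real.log N ^ κ) → (∀ n ∈ Icc 1 x, |c n| ≤ Real.log N ^ κ) →
    ∀ (y : ℕ) (s : ℕ → ℤ), (∀ m ∈ Icc 1 y, 0 ≤ s m ∧ s m ≤ B * N) →
    (energy p y s : ℝ) * N ≤ Real.log N ^ C * (y : ℝ) ^ (2 * p) →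
    ∀ A : ℕ, A ≤ B * N → ∀ φ ψ : ℕ → ℂ, (∀ a, ‖φ a‖ ≤ 1) → (∀ m, ‖ψ m‖ ≤ 1) →
    ‖∑ b ∈ Icc 1 A, ∑ m ∈ Icc 1 y, φ b * ψ m * ((∑ n ∈ Icc 1 x, c n * gI G (b + s m + P.eval (n : ℤ)) *
      (lamI (b + s m + P.eval (n : ℤ) + σ * f.eval (n : ℤ)) - lamzI z (b + s m + P.eval (n : ℤ) + σ * f.eval (n : ℤ))) : ℝ) : ℂ)‖ ≤
      N * y * x / Real.log N ^ U := by
  set d := f.natDegree with hdd
  set B2 : ℕ := 2 * B + 3 * (cf P * B) + 2 with hB2
  set κ' : ℕ := 2 * κ + 2 with hκ'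
  obtain ⟨U', n1, h1⟩ := fam p B2 C (U + κ')
  obtain ⟨B0, hbl⟩ := bil_lam f hd hl B2 (by omega) U'
  refine ⟨B0, fun E => ?_⟩
  obtain ⟨n2, h2⟩ := hbl E
  obtain ⟨n3, h3⟩ := Vz_inv_small E
  obtain ⟨n4, h4⟩ := ev_L' (max 2 (Real.log ((bd P B + cf f * B : ℕ) : ℝ)))
  refine ⟨max (max n1 n2) (max n3 (max n4 3)), fun N hN x hx1 hx2 z hz1 hz2 σ hσ G c hG hc y s hs hE A hA φ ψ hφ hψ => ?_⟩
  have b1 := le_trans (le_trans (le_max_left _ _) (le_max_left _ _)) hN
  have b2 := le_trans (le_trans (le_max_right _ _) (le_max_left _ _)) hN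
  have b3 := le_trans (le_trans (le_max_left _ _) (le_max_right _ _)) hN
  have b4 := le_trans (le_trans (le_trans (le_max_left _ _) (le_max_right _ _)) (le_max_right _ _)) hN
  have hN3 : 3 ≤ N := le_trans (le_trans (le_trans (le_max_right _ _) (le_max_right _ _)) (le_max_right _ _)) hN
  have hNr : (3 : ℝ) ≤ N := by exact_mod_cast hN3
  have hN0 : (0 : ℝ) < N := by linarith
  have hL := h4 N b4
  set L := Real.log N with hLd
  have hL2 : 2 ≤ L := (le_max_left _ _).trans hL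
  have hLB : Real.log ((bd P B + cf f * B : ℕ) : ℝ) ≤ L := (le_max_right _ _).trans hL
  have hL1 : 1 ≤ L := by linarith
  have hL0 : 0 < L := by linarith
  have hx0 : 1 ≤ x := by
    rcases Nat.eq_zero_or_pos x with h | h
    · exfalso
      rw [h, zero_pow (by omega), mul_zero] at hx1
      omega
    · exact h
  have hxr : (0 : ℝ) < x := by exact_mod_cast hx0
  have hz : 1 ≤ z := by
    have : (1 : ℝ) ≤ z := (one_le_pow₀ hL1).trans hz1
    exact_mod_cast this
  have hV : (Vz z)⁻¹ ≤ L := h3 N b3 z hz hz2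
  set A1 : ℕ := bd P B * N with hA1
  set T : ℕ := cf P * B * N + 1 with hT
  set H : ℕ := A1 + 2 * T with hH
  have hPT : ∀ n ∈ Icc 1 x, |P.eval (n : ℤ)| < T := by
    intro n hn
    have h5 := eval_le P d B N x n hP hx2 hn
    rw [hT]
    push_cast at h5 ⊢
    linarith
  have hHB : H ≤ B2 * N := by
    have e1 : B2 * N = bd P B * N + 2 * (cf P * B * N) + 2 * N := by rw [hB2]; unfold bd; ring
    rw [hH, hA1, hT, e1]
    omega
  set K : ℝ := x * L ^ κ' with hK
  have hK0 : 0 < K := by positivity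
  set g : ℕ → ℂ := fun j => if j ∈ Icc 1 H then ((Dk P f σ z x A1 G c ((j : ℤ) - T) / K : ℝ) : ℂ) else 0 with hg
  -- the pair function is bounded
  have hDb : ∀ k : ℤ, |Dk P f σ z x A1 G c k| ≤ K := by
    intro k
    unfold Dk
    refine (abs_sum_le_sum_abs _ _).trans ?_
    have h5 : ∀ n ∈ Icc 1 x, |if 1 ≤ k + P.eval (n : ℤ) ∧ k + P.eval (n : ℤ) ≤ A1 then
      G (k + P.eval (n : ℤ)).toNat * c n * (lamI (k + P.eval (n : ℤ) + σ * f.eval (n : ℤ)) -
        lamzI z (k + P.eval (n : ℤ) + σ * f.eval (n : ℤ))) else 0| ≤ L ^ κ' := by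
      intro n hn
      split_ifs with h6
      · rw [abs_mul, abs_mul]
        have e1 : |G (k + P.eval (n : ℤ)).toNat| ≤ L ^ κ := hG _ (by rw [mem_Icc]; omega)
        have e2 : |c n| ≤ L ^ κ := hc n hn
        have e3 : |lamI (k + P.eval (n : ℤ) + σ * f.eval (n : ℤ)) -
            lamzI z (k + P.eval (n : ℤ) + σ * f.eval (n : ℤ))| ≤ 2 * L := by
          apply lam_diff_le z _ L hL1 hV
          intro h7
          have e4 := eval_le f d B N x n le_rfl hx2 hn
          have e5 : k + P.eval (n : ℤ) + σ * f.eval (n : ℤ) ≤ ((bd P B + cf f * B : ℕ) : ℤ) * N := by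
            have e6 : σ * f.eval (n : ℤ) ≤ |f.eval (n : ℤ)| := by
              rcases hσ with h | h
              · rw [h, one_mul]; exact le_abs_self _
              · rw [h]; have := neg_abs_le (f.eval (n : ℤ)); linarith
            have e7 : (A1 : ℤ) = bd P B * N := by rw [hA1]; push_cast; ring
            push_cast at e4 ⊢
            linarith [h6.2]
          have e8 : ((k + P.eval (n : ℤ) + σ * f.eval (n : ℤ)).toNat : ℝ) ≤ ((bd P B + cf f * B : ℕ) : ℝ) * N := by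
            have e9 : (((k + P.eval (n : ℤ) + σ * f.eval (n : ℤ)).toNat : ℕ) : ℤ) ≤ ((bd P B + cf f * B : ℕ) : ℤ) * N := by
              rw [Int.toNat_of_nonneg (by omega)]; exact e5
            exact_mod_cast e9
          have e10 : (0 : ℝ) < ((k + P.eval (n : ℤ) + σ * f.eval (n : ℤ)).toNat : ℝ) := by
            exact_mod_cast (by omega : 0 < (k + P.eval (n : ℤ) + σ * f.eval (n : ℤ)).toNat)
          have e11 : (0 : ℝ) < ((bd P B + cf f * B : ℕ) : ℝ) := by
            by_contra hcon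
            push Not at hcon
            have : ((bd P B + cf f * B : ℕ) : ℝ) * N ≤ 0 := mul_nonpos_of_nonpos_of_nonneg hcon hN0.le
            linarith
          have e12 := Real.log_le_log e10 e8
          rw [Real.log_mul e11.ne' hN0.ne'] at e12
          linarith
        calc |G (k + P.eval (n : ℤ)).toNat| * |c n| * |lamI (k + P.eval (n : ℤ) + σ * f.eval (n : ℤ)) -
            lamzI z (k + P.eval (n : ℤ) + σ * f.eval (n : ℤ))| ≤ L ^ κ * L ^ κ * (2 * L) := by
              apply mul_le_mul (mul_le_mul e1 e2 (abs_nonneg _) (by positivity)) e3 (abs_nonneg _) (by positivity)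
          _ ≤ L ^ κ * L ^ κ * (L * L) := by
              apply mul_le_mul_of_nonneg_left _ (by positivity)
              exact mul_le_mul_of_nonneg_right hL2 hL0.le
          _ = L ^ κ' := by rw [hκ']; ring
      · rw [abs_zero]; positivity
    refine (sum_le_sum h5).trans (le_of_eq ?_)
    rw [sum_const, Nat.card_Icc, nsmul_eq_mul, hK]
    simp
  have hgb : ∀ j, ‖g j‖ ≤ 1 := by
    intro j
    rw [hg]
    simp only
    split_ifs
    · rw [Complex.norm_real, Real.norm_eq_abs, abs_div, abs_of_pos hK0, div_le_one hK0]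
      exact hDb _
    · simp
  -- its exponential sums are small
  have hgs : ∀ α : ℝ, ‖∑ n ∈ Icc 1 H, g n * ee ((n : ℝ) * α)‖ ≤ N / L ^ U' := by
    intro α
    set G' : ℕ → ℂ := fun a => (if a ∈ Icc 1 A1 then ((G a / L ^ κ : ℝ) : ℂ) else 0) * ee ((a : ℝ) * α) with hG'
    set c' : ℕ → ℂ := fun n => (if n ∈ Icc 1 x then ((c n / L ^ κ : ℝ) : ℂ) else 0) * ee (-((P.eval (n : ℤ) : ℤ) : ℝ) * α) with hc'
    have hLκ : (0 : ℝ) < L ^ κ := by positivity
    have hG'b : ∀ a, ‖G' a‖ ≤ 1 := by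
      intro a
      rw [hG']
      simp only [norm_mul, norm_ee, mul_one]
      split_ifs with ha
      · rw [Complex.norm_real, Real.norm_eq_abs, abs_div, abs_of_pos hLκ, div_le_one hLκ]
        exact hG a ha
      · simp
    have hc'b : ∀ n, ‖c' n‖ ≤ 1 := by
      intro a
      rw [hc']
      simp only [norm_mul, norm_ee, mul_one]
      split_ifs with ha
      · rw [Complex.norm_real, Real.norm_eq_abs, abs_div, abs_of_pos hLκ, div_le_one hLκ]
        exact hc a ha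
      · simp
    have hA1B : A1 ≤ B2 * N := Nat.mul_le_mul_right _ (by unfold bd; omega)
    have hxB1 : N ≤ B2 * x ^ d := hx1.trans (Nat.mul_le_mul_right _ (by omega))
    have hxB2 : x ^ d ≤ B2 * N := hx2.trans (Nat.mul_le_mul_right _ (by omega))
    have key := h2 N b2 x hxB1 hxB2 A1 hA1B z hz1 hz2 σ hσ G' c' hG'b hc'b
    have e1 : ∑ n ∈ Icc 1 H, g n * ee ((n : ℝ) * α) =
        ((1 / K : ℝ) : ℂ) * ∑ j ∈ Icc 1 H, ((Dk P f σ z x A1 G c ((j : ℤ) - T) : ℝ) : ℂ) * ee ((j : ℝ) * α) := by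
      rw [mul_sum]
      apply sum_congr rfl
      intro j hj
      rw [hg]
      simp only
      rw [if_pos hj]
      push_cast
      ring
    have e2 := Dk_exp P f σ z x A1 H T G c hPT le_rfl α
    have e3 : ∑ a ∈ Icc 1 A1, ∑ n ∈ Icc 1 x, (((G a : ℝ) : ℂ) * ee ((a : ℝ) * α)) *
        (((c n : ℝ) : ℂ) * ee (-((P.eval (n : ℤ) : ℤ) : ℝ) * α)) *
        ((lamI (a + σ * f.eval (n : ℤ)) - lamzI z (a + σ * f.eval (n : ℤ)) : ℝ) : ℂ) =
        ((L ^ κ * L ^ κ : ℝ) : ℂ) * ∑ a ∈ Icc 1 A1, ∑ n ∈ Icc 1 x, G' a * c' n *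
        ((lamI (a + σ * f.eval (n : ℤ)) - lamzI z (a + σ * f.eval (n : ℤ)) : ℝ) : ℂ) := by
      rw [mul_sum]
      apply sum_congr rfl
      intro a ha
      rw [mul_sum]
      apply sum_congr rfl
      intro n hn
      rw [hG', hc']
      simp only
      rw [if_pos ha, if_pos hn]
      have hLc : (L : ℂ) ≠ 0 := by exact_mod_cast hL0.ne'
      push_cast
      field_simp
    rw [e1, e2, e3, norm_mul, norm_mul, norm_mul, norm_ee, one_mul, Complex.norm_real, Complex.norm_real,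
      Real.norm_of_nonneg (by positivity), Real.norm_of_nonneg (by positivity)]
    have e4 : 1 / K * (L ^ κ * L ^ κ * (N * x / L ^ U')) ≤ N / L ^ U' := by
      have e5 : 1 / K * (L ^ κ * L ^ κ * (N * x / L ^ U')) = (N / L ^ U') * (1 / (L * L)) := by
        rw [hK, hκ']
        have : L ^ (2 * κ + 2) = L ^ κ * L ^ κ * (L * L) := by ring
        rw [this]
        field_simp
      rw [e5]
      apply mul_le_of_le_one_right (by positivity)
      rw [div_le_one (by positivity)]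
      nlinarith
    refine le_trans ?_ e4
    apply mul_le_mul_of_nonneg_left _ (by positivity)
    apply mul_le_mul_of_nonneg_left key (by positivity)
  -- the family, translated
  set s' : ℕ → ℤ := fun m => s m + T with hs'
  have hs'B : ∀ m ∈ Icc 1 y, |s' m| ≤ B2 * N := by
    intro m hm
    have h5 := hs m hm
    rw [hs']
    simp only
    rw [abs_of_nonneg (by omega)]
    have e1 : ((T : ℕ) : ℤ) ≤ cf P * B * N + 1 := by rw [hT]; push_cast; omega
    have e2 : (B2 : ℤ) * N = B * N + (cf P * B * N) + (B * N + 2 * (cf P * B * N) + 2 * N) := by rw [hB2]; push_cast; ring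
    have e3 : (0 : ℤ) ≤ B * N := by positivity
    have e4 : (0 : ℤ) ≤ cf P * B * N := by positivity
    rw [e2]
    have hN3' : (3 : ℤ) ≤ N := by exact_mod_cast hN3
    linarith [h5.2]
  have hE' : (energy p y s' : ℝ) * N ≤ Real.log N ^ C * (y : ℝ) ^ (2 * p) := by
    rw [hs', energy_shift]; exact hE
  have hA2 : A ≤ B2 * N := hA.trans (Nat.mul_le_mul_right _ (by omega))
  have key := h1 N b1 g H hHB hgb hgs y s' hs'B hE' A hA2 φ ψ hφ hψ
  have e0 : ∑ b ∈ Icc 1 A, ∑ m ∈ Icc 1 y, φ b * ψ m * ((∑ n ∈ Icc 1 x, c n * gI G (b + s m + P.eval (n : ℤ)) *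
      (lamI (b + s m + P.eval (n : ℤ) + σ * f.eval (n : ℤ)) - lamzI z (b + s m + P.eval (n : ℤ) + σ * f.eval (n : ℤ))) : ℝ) : ℂ) =
      ((K : ℝ) : ℂ) * ∑ a ∈ Icc 1 A, ∑ m ∈ Icc 1 y, φ a * ψ m * fz g H (a + s' m) := by
    rw [mul_sum]
    apply sum_congr rfl
    intro b hb
    rw [mul_sum]
    apply sum_congr rfl
    intro m hm
    have h5 := hs m hm
    rw [mem_Icc] at hb
    have hbA : (b : ℤ) ≤ B * N := by exact_mod_cast hb.2.trans hA
    have hb1 : (1 : ℤ) ≤ b := by exact_mod_cast hb.1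
    have e1 : ((A1 : ℕ) : ℤ) = 2 * (B * N) + cf P * B * N := by rw [hA1]; unfold bd; push_cast; ring
    have e2 : ((T : ℕ) : ℤ) = cf P * B * N + 1 := by rw [hT]; push_cast; ring
    have e3 : ((H : ℕ) : ℤ) = A1 + 2 * T := by rw [hH]; push_cast; ring
    have e4 : (0 : ℤ) ≤ B * N := by positivity
    have e5 : (0 : ℤ) ≤ cf P * B * N := by positivity
    have h6 : 1 ≤ (b : ℤ) + s' m ∧ (b : ℤ) + s' m ≤ H := by
      rw [hs']
      simp only
      constructor <;> linarith [h5.1, h5.2]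
    unfold fz
    rw [if_pos h6, hg]
    simp only
    have h7 : ((b : ℤ) + s' m).toNat ∈ Icc 1 H := by rw [mem_Icc]; omega
    rw [if_pos h7, Int.toNat_of_nonneg (by omega)]
    have h8 : (b : ℤ) + s' m - T = b + s m := by rw [hs']; simp only; ring
    rw [h8]
    have h9 : Dk P f σ z x A1 G c ((b : ℤ) + s m) = ∑ n ∈ Icc 1 x, c n * gI G (b + s m + P.eval (n : ℤ)) *
      (lamI (b + s m + P.eval (n : ℤ) + σ * f.eval (n : ℤ)) - lamzI z (b + s m + P.eval (n : ℤ) + σ * f.eval (n : ℤ))) := by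
      unfold Dk gI
      apply sum_congr rfl
      intro n hn
      have h10 := abs_lt.1 (hPT n hn)
      have h10' := eval_le P d B N x n hP hx2 hn
      have h11 := abs_le.1 h10'
      push_cast at h11
      by_cases h12 : 1 ≤ (b : ℤ) + s m + P.eval (n : ℤ)
      · rw [if_pos ⟨h12, by rw [e1]; linarith [h5.2, h11.2]⟩, if_pos h12]
        ring
      · rw [if_neg (fun h => h12 h.1), if_neg h12]
        ring
    rw [h9]
    have hKc : ((K : ℝ) : ℂ) ≠ 0 := by exact_mod_cast hK0.ne'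
    rw [Complex.ofReal_div]
    field_simp
  rw [e0, norm_mul, Complex.norm_real, Real.norm_of_nonneg hK0.le]
  refine (mul_le_mul_of_nonneg_left key hK0.le).trans (le_of_eq ?_)
  have hLe : L ^ (U + κ') = L ^ U * L ^ κ' := pow_add L U κ'
  rw [hK, ← hLd, hLe]
  have hLk : L ^ κ' ≠ 0 := by positivity
  have hLU : L ^ U ≠ 0 := by positivity
  calc (x : ℝ) * L ^ κ' * (N * y / (L ^ U * L ^ κ')) = (N * y * x) * L ^ κ' / (L ^ U * L ^ κ') := by ring
    _ = _ := by rw [mul_div_mul_right _ _ hLk]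

end Pool.Agent.Y871.PT
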