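import Mathlib
import Pool.Agent.Y871.PT.Pair
import Pool.Agent.H373R2.T7.Sys1

/-! One pair of polynomials with a common shift: from the von Mangoldt function to its model, on average over a
family of shifts, for almost all translates of the family. -/

namespace Pool.Agent.Y871.PT
open Finset Polynomial
open Pool.Agent.H373R2.T7
open Pool.Agent.H807R2.Dav

lemma norm_form (F G : ℤ[X]) (hd : 1 ≤ (G - F).natDegree) : ∃ (f : ℤ[X]) (σ : ℤ), (σ = 1 ∨ σ = -1) ∧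
    f.natDegree = (G - F).natDegree ∧ 0 < f.leadingCoeff ∧ ∀ n : ℤ, G.eval n = F.eval n + σ * f.eval n := by
  have h0 : (G - F) ≠ 0 := by rintro h; rw [h] at hd; simp at hd
  have h1 : (G - F).leadingCoeff ≠ 0 := leadingCoeff_ne_zero.2 h0
  rcases lt_or_gt_of_ne h1 with h | h
  · refine ⟨-(G - F), -1, Or.inr rfl, natDegree_neg _, ?_, fun n => ?_⟩
    · rw [leadingCoeff_neg]; linarith
    · simp
  · refine ⟨G - F, 1, Or.inl rfl, rfl, h, fun n => ?_⟩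
    simp

/-- the difference of the two products, summed over the family -/
noncomputable def dif (F G : ℤ[X]) (z y : ℕ) (s : ℕ → ℤ) (b n : ℕ) : ℝ :=
  ∑ m ∈ Icc 1 y, (lamI (b + s m + F.eval (n : ℤ)) * lamI (b + s m + G.eval (n : ℤ)) -
    lamzI z (b + s m + F.eval (n : ℤ)) * lamzI z (b + s m + G.eval (n : ℤ)))

set_option maxHeartbeats 1000000 in
theorem pair_l1N (F G : ℤ[X]) (hd : 1 ≤ (G - F).natDegree) (hF : F.natDegree ≤ (G - F).natDegree)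
    (hG : G.natDegree ≤ (G - F).natDegree) (B : ℕ) (hB : 1 ≤ B) (p C U : ℕ) :
    ∃ B0 : ℕ, ∀ E : ℕ, ∃ N0 : ℕ, ∀ N : ℕ, N0 ≤ N → ∀ x : ℕ, N ≤ B * x ^ (G - F).natDegree → x ^ (G - F).natDegree ≤ B * N →
    ∀ z : ℕ, Real.log N ^ B0 ≤ z → (z : ℝ) ≤ Real.log N ^ E →
    ∀ c : ℕ → ℝ, (∀ n ∈ Icc 1 x, |c n| ≤ 1) →
    ∀ (y : ℕ) (s : ℕ → ℤ), (∀ m ∈ Icc 1 y, 0 ≤ s m ∧ s m ≤ B * N) →
    (energy p y s : ℝ) * N ≤ Real.log N ^ C * (y : ℝ) ^ (2 * p) →
    ∀ A : ℕ, A ≤ B * N →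
    ∑ b ∈ Icc 1 A, |∑ n ∈ Icc 1 x, c n * dif F G z y s b n| ≤ N * y * x / Real.log N ^ U := by
  obtain ⟨f, σ, hσ, hfd, hfl, hfe⟩ := norm_form F G hd
  have hσ' : -σ = 1 ∨ -σ = -1 := by rcases hσ with h | h <;> rw [h] <;> simp
  obtain ⟨Ba, hBa⟩ := pair_bil F f (by omega) hfl (by omega) B hB p C (U + 1) 2
  obtain ⟨Bb, hBb⟩ := pair_bil G f (by omega) hfl (by omega) B hB p C (U + 1) 2
  refine ⟨Ba + Bb, fun E => ?_⟩
  obtain ⟨na, ha⟩ := hBa E
  obtain ⟨nb, hb⟩ := hBb E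
  obtain ⟨n3, h3⟩ := Vz_inv_small E
  obtain ⟨n4, h4⟩ := ev_L' (max 2 (Real.log ((bd F B + 1 : ℕ) : ℝ)))
  refine ⟨max (max na nb) (max n3 (max n4 3)), fun N hN x hx1 hx2 z hz1 hz2 c hc y s hs hE A hA => ?_⟩
  have b1 := le_trans (le_trans (le_max_left _ _) (le_max_left _ _)) hN
  have b2 := le_trans (le_trans (le_max_right _ _) (le_max_left _ _)) hN
  have b3 := le_trans (le_trans (le_max_left _ _) (le_max_right _ _)) hN
  have b4 := le_trans (le_trans (le_trans (le_max_left _ _) (le_max_right _ _)) (le_max_right _ _)) hN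
  have hN3 : 3 ≤ N := le_trans (le_trans (le_trans (le_max_right _ _) (le_max_right _ _)) (le_max_right _ _)) hN
  have hNr : (3 : ℝ) ≤ N := by exact_mod_cast hN3
  have hN0 : (0 : ℝ) < N := by linarith
  have hL := h4 N b4
  set L := Real.log N with hLd
  have hL2 : 2 ≤ L := (le_max_left _ _).trans hL
  have hLB : Real.log ((bd F B + 1 : ℕ) : ℝ) ≤ L := (le_max_right _ _).trans hL
  have hL1 : 1 ≤ L := by linarith
  have hL0 : 0 < L := by linarith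
  have hza : L ^ Ba ≤ z := (pow_le_pow_right₀ hL1 (by omega)).trans hz1
  have hzb : L ^ Bb ≤ z := (pow_le_pow_right₀ hL1 (by omega)).trans hz1
  have hz : 1 ≤ z := by
    have : (1 : ℝ) ≤ z := (one_le_pow₀ hL1).trans hz1
    exact_mod_cast this
  have hV : (Vz z)⁻¹ ≤ L := h3 N b3 z hz hz2
  rw [← hfd] at hx1 hx2
  -- signs
  set φ : ℕ → ℝ := fun b => if 0 ≤ ∑ n ∈ Icc 1 x, c n * dif F G z y s b n then 1 else -1 with hφ
  have hφ1 : ∀ b, ‖((φ b : ℝ) : ℂ)‖ ≤ 1 := by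
    intro b
    rw [Complex.norm_real, hφ]
    simp only
    split_ifs <;> simp
  have habs : ∀ b, |∑ n ∈ Icc 1 x, c n * dif F G z y s b n| = φ b * ∑ n ∈ Icc 1 x, c n * dif F G z y s b n := by
    intro b
    rw [hφ]
    simp only
    split_ifs with h
    · rw [abs_of_nonneg h, one_mul]
    · rw [abs_of_neg (not_le.1 h)]; ring
  have hLam : ∀ a ∈ Icc 1 (bd F B * N), |(fun n : ℕ => (ArithmeticFunction.vonMangoldt n : ℝ)) a| ≤ L ^ 2 := by
    intro a ha'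
    rw [mem_Icc] at ha'
    simp only
    rw [abs_of_nonneg ArithmeticFunction.vonMangoldt_nonneg]
    refine ArithmeticFunction.vonMangoldt_le_log.trans ?_
    have h5 : (a : ℝ) ≤ ((bd F B + 1 : ℕ) : ℝ) * N := by
      have : a ≤ (bd F B + 1) * N := ha'.2.trans (Nat.mul_le_mul_right _ (by omega))
      exact_mod_cast this
    have h6 : (0 : ℝ) < a := by exact_mod_cast ha'.1
    have h7 := Real.log_le_log h6 h5
    rw [Real.log_mul (by positivity) hN0.ne'] at h7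
    calc Real.log a ≤ 2 * L := by linarith
      _ ≤ L ^ 2 := by nlinarith
  have hlz : ∀ a ∈ Icc 1 (bd G B * N), |lamz z a| ≤ L ^ 2 := by
    intro a _
    rw [abs_of_nonneg (lamz_nonneg _ _)]
    unfold lamz
    split_ifs
    · refine hV.trans ?_
      nlinarith
    · positivity
  have k1 := ha N b1 x hx1 hx2 z hza hz2 σ hσ (fun n => ArithmeticFunction.vonMangoldt n) c hLam
    (fun n hn => (hc n hn).trans (one_le_pow₀ hL1)) y s hs hE A hA (fun b => ((φ b : ℝ) : ℂ)) (fun _ => 1) hφ1 (fun _ => by simp)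
  have k2 := hb N b2 x hx1 hx2 z hzb hz2 (-σ) hσ' (lamz z) c hlz
    (fun n hn => (hc n hn).trans (one_le_pow₀ hL1)) y s hs hE A hA (fun b => ((φ b : ℝ) : ℂ)) (fun _ => 1) hφ1 (fun _ => by simp)
  -- the decomposition
  have hdec : ((∑ b ∈ Icc 1 A, |∑ n ∈ Icc 1 x, c n * dif F G z y s b n| : ℝ) : ℂ) =
      (∑ b ∈ Icc 1 A, ∑ m ∈ Icc 1 y, ((φ b : ℝ) : ℂ) * 1 * ((∑ n ∈ Icc 1 x, c n * gI (fun n => ArithmeticFunction.vonMangoldt n) (b + s m + F.eval (n : ℤ)) *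
      (lamI (b + s m + F.eval (n : ℤ) + σ * f.eval (n : ℤ)) - lamzI z (b + s m + F.eval (n : ℤ) + σ * f.eval (n : ℤ))) : ℝ) : ℂ)) +
      (∑ b ∈ Icc 1 A, ∑ m ∈ Icc 1 y, ((φ b : ℝ) : ℂ) * 1 * ((∑ n ∈ Icc 1 x, c n * gI (lamz z) (b + s m + G.eval (n : ℤ)) *
      (lamI (b + s m + G.eval (n : ℤ) + -σ * f.eval (n : ℤ)) - lamzI z (b + s m + G.eval (n : ℤ) + -σ * f.eval (n : ℤ))) : ℝ) : ℂ)) := by
    rw [← sum_add_distrib]
    push_cast
    apply sum_congr rfl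
    intro b _
    have e0 := habs b
    have e1 : (((|∑ n ∈ Icc 1 x, c n * dif F G z y s b n| : ℝ)) : ℂ) = ((φ b * ∑ n ∈ Icc 1 x, c n * dif F G z y s b n : ℝ) : ℂ) := by
      rw [e0]
    rw [← sum_add_distrib]
    have e2 : ∀ m ∈ Icc 1 y, (((φ b : ℝ) : ℂ) * 1 * (∑ n ∈ Icc 1 x, ((c n : ℝ) : ℂ) * ((gI (fun n => ArithmeticFunction.vonMangoldt n) (b + s m + F.eval (n : ℤ)) : ℝ) : ℂ) *
      (((lamI (b + s m + F.eval (n : ℤ) + σ * f.eval (n : ℤ)) : ℝ) : ℂ) - ((lamzI z (b + s m + F.eval (n : ℤ) + σ * f.eval (n : ℤ)) : ℝ) : ℂ))) +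
      ((φ b : ℝ) : ℂ) * 1 * (∑ n ∈ Icc 1 x, ((c n : ℝ) : ℂ) * ((gI (lamz z) (b + s m + G.eval (n : ℤ)) : ℝ) : ℂ) *
      (((lamI (b + s m + G.eval (n : ℤ) + -σ * f.eval (n : ℤ)) : ℝ) : ℂ) - ((lamzI z (b + s m + G.eval (n : ℤ) + -σ * f.eval (n : ℤ)) : ℝ) : ℂ)))) =
      ((φ b * ∑ n ∈ Icc 1 x, c n * (lamI (b + s m + F.eval (n : ℤ)) * lamI (b + s m + G.eval (n : ℤ)) -
        lamzI z (b + s m + F.eval (n : ℤ)) * lamzI z (b + s m + G.eval (n : ℤ))) : ℝ) : ℂ) := by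
      intro m _
      rw [mul_one, ← mul_add, ← sum_add_distrib]
      push_cast
      congr 1
      apply sum_congr rfl
      intro n _
      have e3 : (b : ℤ) + s m + F.eval (n : ℤ) + σ * f.eval (n : ℤ) = b + s m + G.eval (n : ℤ) := by
        rw [hfe n]; ring
      have e4 : (b : ℤ) + s m + G.eval (n : ℤ) + -σ * f.eval (n : ℤ) = b + s m + F.eval (n : ℤ) := by
        rw [hfe n]; ring
      rw [e3, e4, gI_lam, gI_lamz]
      ring
    rw [sum_congr rfl e2, ← Complex.ofReal_sum, ← mul_sum]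
    rw [e0]
    congr 2
    unfold dif
    simp only [mul_sum]
    rw [sum_comm]
  have hnn : 0 ≤ ∑ b ∈ Icc 1 A, |∑ n ∈ Icc 1 x, c n * dif F G z y s b n| := sum_nonneg fun _ _ => abs_nonneg _
  have e5 : ∑ b ∈ Icc 1 A, |∑ n ∈ Icc 1 x, c n * dif F G z y s b n| =
      ‖((∑ b ∈ Icc 1 A, |∑ n ∈ Icc 1 x, c n * dif F G z y s b n| : ℝ) : ℂ)‖ := by
    rw [Complex.norm_real, Real.norm_of_nonneg hnn]
  rw [e5, hdec]
  refine (norm_add_le _ _).trans ((add_le_add k1 k2).trans ?_)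
  have e6 : (N : ℝ) * y * x / L ^ (U + 1) + N * y * x / L ^ (U + 1) = (N * y * x / L ^ U) * (2 / L) := by
    rw [pow_succ]; field_simp; norm_num
  rw [e6]
  apply mul_le_of_le_one_right (by positivity)
  rw [div_le_one hL0]
  exact hL2

end Pool.Agent.Y871.PT
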