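import Mathlib
import Pool.Agent.Y871.PT.One
import Pool.Agent.H373R2.T7.Sys8

/-! Several pairs: the `L¹` theorem for the averages over the families. -/

namespace Pool.Agent.Y871.PT
open Finset Polynomial
open Pool.Agent.H373R2.T7

/-- one pair, in terms of `x` -/
theorem pair_l1 (F G : ℤ[X]) (d : ℕ) (hd : 1 ≤ d) (hGF : (G - F).natDegree = d) (hF : F.natDegree ≤ d)
    (hG : G.natDegree ≤ d) (B : ℕ) (hB : 1 ≤ B) (p C U : ℕ) :
    ∃ B0 : ℕ, ∀ E : ℕ, ∃ N0 : ℕ, ∀ x : ℕ, N0 ≤ x → ∀ z : ℕ, Real.log x ^ B0 ≤ z → (z : ℝ) ≤ Real.log x ^ E →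
    ∀ (y : ℕ) (s : ℕ → ℤ), (∀ m ∈ Icc 1 y, 0 ≤ s m ∧ s m ≤ ((B * x ^ d : ℕ) : ℤ)) →
    (energy p y s : ℝ) * (x : ℝ) ^ d ≤ Real.log x ^ C * (y : ℝ) ^ (2 * p) →
    ∀ A : ℕ, A ≤ B * x ^ d → ∀ K : ℝ, 0 < K → ∀ c : ℕ → ℝ, (∀ n ∈ Icc 1 x, |c n| ≤ K) →
    ∑ b ∈ Icc 1 A, |∑ n ∈ Icc 1 x, c n * dif F G z y s b n| ≤ K * ((x : ℝ) ^ d * y * x / Real.log x ^ U) := by
  obtain ⟨B0, h0⟩ := pair_l1N F G (by omega) (by omega) (by omega) B hB p C U
  refine ⟨B0 + 1, fun E => ?_⟩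
  obtain ⟨n0, h1⟩ := h0 E
  obtain ⟨n1, h2⟩ := ev_L' ((d : ℝ) ^ B0 + 1)
  refine ⟨max (max n0 n1) 3, fun x hx z hz1 hz2 y s hs hE A hA K hK c hc => ?_⟩
  have b0 := le_trans (le_trans (le_max_left _ _) (le_max_left _ _)) hx
  have b1 := le_trans (le_trans (le_max_right _ _) (le_max_left _ _)) hx
  have hx3 : 3 ≤ x := le_trans (le_max_right _ _) hx
  have hL := h2 x b1
  set L := Real.log x with hLd
  have hdr : (1 : ℝ) ≤ d := by exact_mod_cast hd
  have hdB : (0 : ℝ) ≤ (d : ℝ) ^ B0 := by positivity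
  have hL1 : 1 ≤ L := by linarith
  have hL0 : 0 < L := by linarith
  have hxd : x ≤ x ^ d := Nat.le_self_pow (by omega) x
  have hlog : Real.log ((x ^ d : ℕ) : ℝ) = d * L := by
    push_cast
    rw [Real.log_pow]
  have hLN : L ≤ Real.log ((x ^ d : ℕ) : ℝ) := by
    rw [hlog]
    nlinarith
  have key := h1 (x ^ d) (b0.trans hxd) x (by rw [hGF]; exact Nat.le_mul_of_pos_left _ (by omega))
    (by rw [hGF]; exact Nat.le_mul_of_pos_left _ (by omega)) z (by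
      rw [hlog, mul_pow]
      refine le_trans ?_ hz1
      calc (d : ℝ) ^ B0 * L ^ B0 ≤ L * L ^ B0 := by
            apply mul_le_mul_of_nonneg_right _ (by positivity)
            linarith
        _ = L ^ (B0 + 1) := by ring) (by
      refine hz2.trans ?_
      exact pow_le_pow_left₀ hL0.le hLN _) (fun n => c n / K) (fun n hn => by
      rw [abs_div, abs_of_pos hK, div_le_one hK]
      exact hc n hn) y s (fun m hm => by
      have := hs m hm
      push_cast at this ⊢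
      exact this) (by
      push_cast
      refine hE.trans ?_
      apply mul_le_mul_of_nonneg_right _ (by positivity)
      have h3 := pow_le_pow_left₀ hL0.le hLN C
      push_cast at h3
      exact h3) A hA
  have e1 : ∀ b ∈ Icc 1 A, |∑ n ∈ Icc 1 x, c n * dif F G z y s b n| = K * |∑ n ∈ Icc 1 x, c n / K * dif F G z y s b n| := by
    intro b _
    have : ∑ n ∈ Icc 1 x, c n * dif F G z y s b n = K * ∑ n ∈ Icc 1 x, c n / K * dif F G z y s b n := by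
      rw [mul_sum]
      apply sum_congr rfl
      intro n _
      field_simp
    rw [this, abs_mul, abs_of_pos hK]
  rw [sum_congr rfl e1, ← mul_sum]
  apply mul_le_mul_of_nonneg_left _ hK.le
  refine key.trans ?_
  have h3 : (0 : ℝ) ≤ ((x ^ d : ℕ) : ℝ) * y * x := by positivity
  calc ((x ^ d : ℕ) : ℝ) * y * x / Real.log ((x ^ d : ℕ) : ℝ) ^ U ≤ ((x ^ d : ℕ) : ℝ) * y * x / L ^ U := by
        apply div_le_div_of_nonneg_left h3 (by positivity)
        exact pow_le_pow_left₀ hL0.le hLN _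
    _ = _ := by push_cast; rfl

/-- the average over the family -/
noncomputable def gP (F G : ℤ[X]) (y : ℕ) (s : ℕ → ℤ) (n v : ℕ) : ℝ :=
  (∑ m ∈ Icc 1 y, lamI (v + s m + F.eval (n : ℤ)) * lamI (v + s m + G.eval (n : ℤ))) / y

/-- the average of the model -/
noncomputable def gQ (F G : ℤ[X]) (z y : ℕ) (s : ℕ → ℤ) (n v : ℕ) : ℝ :=
  (∑ m ∈ Icc 1 y, lamzI z (v + s m + F.eval (n : ℤ)) * lamzI z (v + s m + G.eval (n : ℤ))) / y

lemma gP_sub (F G : ℤ[X]) (z y : ℕ) (s : ℕ → ℤ) (n v : ℕ) : gP F G y s n v - gQ F G z y s n v = dif F G z y s v n / y := by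
  unfold gP gQ dif
  rw [← sub_div, ← sum_sub_distrib]

lemma avg_le (y : ℕ) (f : ℕ → ℝ) (M : ℝ) (hM : 0 ≤ M) (hf : ∀ m ∈ Icc 1 y, 0 ≤ f m ∧ f m ≤ M) :
    |(∑ m ∈ Icc 1 y, f m) / y| ≤ M := by
  have h0 : 0 ≤ ∑ m ∈ Icc 1 y, f m := sum_nonneg fun m hm => (hf m hm).1
  rw [abs_of_nonneg (div_nonneg h0 (Nat.cast_nonneg _))]
  rcases Nat.eq_zero_or_pos y with h | h
  · rw [h]; simpa using hM
  · have hy : (0 : ℝ) < y := by exact_mod_cast h
    rw [div_le_iff₀ hy]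
    calc ∑ m ∈ Icc 1 y, f m ≤ ∑ _m ∈ Icc 1 y, M := sum_le_sum fun m hm => (hf m hm).2
      _ = M * y := by rw [sum_const, nsmul_eq_mul, Nat.card_Icc, Nat.add_sub_cancel]; ring

end Pool.Agent.Y871.PT
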