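import Mathlib
import Pool.Agent.Y871.PT.Two

/-! Several pairs: the `L¹` theorem for the averages over the families. -/

namespace Pool.Agent.Y871.PT
open Finset Polynomial
open Pool.Agent.H373R2.T7

/-- the data: pairs of polynomials with the degrees of their differences -/
structure Dat {r : ℕ} (F G : Fin r → ℤ[X]) (d : Fin r → ℕ) : Prop where
  dF : ∀ i, 1 ≤ (F i).natDegree
  dG : ∀ i, 1 ≤ (G i).natDegree
  lF : ∀ i, 0 < (F i).leadingCoeff
  lG : ∀ i, 0 < (G i).leadingCoeff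
  leF : ∀ i, (F i).natDegree ≤ d i
  leG : ∀ i, (G i).natDegree ≤ d i
  deg : ∀ i, (G i - F i).natDegree = d i

/-- the families of shifts -/
structure Fml {r : ℕ} (d : Fin r → ℕ) (B : ℕ) (p : Fin r → ℕ) (C x : ℕ) (y : Fin r → ℕ) (s : Fin r → ℕ → ℤ) : Prop where
  y1 : ∀ i, 1 ≤ y i
  s0 : ∀ i, ∀ m ∈ Icc 1 (y i), 0 ≤ s i m ∧ s i m ≤ ((B * x ^ d i : ℕ) : ℤ)
  en : ∀ i, (energy (p i) (y i) (s i) : ℝ) * (x : ℝ) ^ d i ≤ Real.log x ^ C * (y i : ℝ) ^ (2 * p i)

/-- the constant in the bound for the values -/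
def cs {r : ℕ} (F G : Fin r → ℤ[X]) (B : ℕ) : ℕ := 2 * B + 1 + univ.sup (fun i => cf (F i) + cf (G i))

lemma val_le {r : ℕ} (F G : Fin r → ℤ[X]) (d : Fin r → ℕ) (hD : Dat F G d) (B x : ℕ) (i : Fin r) (v : ℕ) (t : ℤ) (n : ℕ)
    (hn : n ∈ Icc 1 x) (hv : v ≤ B * x ^ d i) (ht : t ≤ ((B * x ^ d i : ℕ) : ℤ)) :
    (v : ℤ) + t + (F i).eval (n : ℤ) ≤ ((cs F G B * x ^ d i : ℕ) : ℤ) ∧
    (v : ℤ) + t + (G i).eval (n : ℤ) ≤ ((cs F G B * x ^ d i : ℕ) : ℤ) := by
  rw [mem_Icc] at hn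
  have hsup : cf (F i) + cf (G i) ≤ univ.sup (fun i => cf (F i) + cf (G i)) :=
    le_sup (f := fun i => cf (F i) + cf (G i)) (mem_univ i)
  have hpow : ∀ e : ℕ, e ≤ d i → n ^ e ≤ x ^ d i := fun e he =>
    (Nat.pow_le_pow_right hn.1 he).trans (Nat.pow_le_pow_left hn.2 _)
  have hgen : ∀ P : ℤ[X], cf P ≤ cf (F i) + cf (G i) → P.natDegree ≤ d i →
      (v : ℤ) + t + P.eval (n : ℤ) ≤ ((cs F G B * x ^ d i : ℕ) : ℤ) := by
    intro P hc hP
    have h1 := (le_abs_self _).trans (abs_eval_le P n hn.1)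
    have h2 : cf P * n ^ P.natDegree ≤ univ.sup (fun i => cf (F i) + cf (G i)) * x ^ d i :=
      Nat.mul_le_mul (hc.trans hsup) (hpow _ hP)
    have h3 : ((cf P * n ^ P.natDegree : ℕ) : ℤ) ≤ ((univ.sup (fun i => cf (F i) + cf (G i)) * x ^ d i : ℕ) : ℤ) := by
      exact_mod_cast h2
    have h4 : ((cf P * n ^ P.natDegree : ℕ) : ℤ) = (cf P : ℤ) * (n : ℤ) ^ P.natDegree := by push_cast; ring
    have h5 : (v : ℤ) ≤ ((B * x ^ d i : ℕ) : ℤ) := by exact_mod_cast hv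
    have h6 : ((cs F G B * x ^ d i : ℕ) : ℤ) = ((B * x ^ d i : ℕ) : ℤ) + ((B * x ^ d i : ℕ) : ℤ) + ((x ^ d i : ℕ) : ℤ) +
        ((univ.sup (fun i => cf (F i) + cf (G i)) * x ^ d i : ℕ) : ℤ) := by
      unfold cs
      push_cast
      ring
    have h7 : (0 : ℤ) ≤ ((x ^ d i : ℕ) : ℤ) := Int.natCast_nonneg _
    rw [h6]
    linarith
  exact ⟨hgen _ (by omega) (hD.leF i), hgen _ (by omega) (hD.leG i)⟩

set_option maxHeartbeats 1000000 in
theorem multi_I {r : ℕ} (F G : Fin r → ℤ[X]) (d : Fin r → ℕ) (hD : Dat F G d) (B : ℕ) (hB : 1 ≤ B) (p : Fin r → ℕ) (C U : ℕ) :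
    ∃ B0 : ℕ, ∀ E : ℕ, ∃ N0 : ℕ, ∀ x : ℕ, N0 ≤ x → ∀ z : ℕ, Real.log x ^ B0 ≤ z → (z : ℝ) ≤ Real.log x ^ E →
    ∀ A : Fin r → ℕ, (∀ i, A i ≤ B * x ^ d i ∧ x ^ d i ≤ B * A i) →
    ∀ (y : Fin r → ℕ) (s : Fin r → ℕ → ℤ), Fml d B p C x y s →
    ∀ H : ℕ → ℝ, (∀ n ∈ Icc 1 x, |H n| ≤ Real.log x) →
    ∑ b ∈ Fintype.piFinset (fun i => Icc 1 (A i)), |∑ n ∈ Icc 1 x, H n *
        (∏ i, gP (F i) (G i) (y i) (s i) n (b i) - ∏ i, gQ (F i) (G i) z (y i) (s i) n (b i))| ≤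
        x * (∏ i, (A i : ℝ)) / Real.log x ^ U := by
  classical
  set Dm : ℕ := univ.sup d with hDm
  set U' : ℕ := U + 2 * r + 2 with hU'
  have hd1 : ∀ i, 1 ≤ d i := fun i => (hD.dF i).trans (hD.leF i)
  have hpl := fun i => pair_l1 (F i) (G i) (d i) (hd1 i) (hD.deg i) (hD.leF i) (hD.leG i) B hB (p i) C U'
  choose B0 hB0 using hpl
  refine ⟨univ.sup B0, fun E => ?_⟩
  have hE := fun i => hB0 i E
  choose N0 hN0 using hE
  set c1 : ℕ := cs F G B with hc1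
  set C2 : ℝ := Real.log c1 + (Dm + 2) + (r : ℝ) * ((Dm + 2) ^ 2) ^ r * B with hC2
  obtain ⟨n2, h2⟩ := ev_L' C2
  obtain ⟨n3, h3⟩ := Vz_inv_small E
  refine ⟨max (univ.sup N0) (max (max n2 n3) 3), fun x hx z hz1 hz2 A hA y s hs H hH => ?_⟩
  have b0 := le_trans (le_max_left _ _) hx
  have b2 := le_trans (le_trans (le_trans (le_max_left _ _) (le_max_left _ _)) (le_max_right _ _)) hx
  have b3 := le_trans (le_trans (le_trans (le_max_right _ _) (le_max_left _ _)) (le_max_right _ _)) hx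
  have hx3 : 3 ≤ x := le_trans (le_trans (le_max_right _ _) (le_max_right _ _)) hx
  have hxr : (3 : ℝ) ≤ x := by exact_mod_cast hx3
  have hx0 : (0 : ℝ) < x := by linarith
  have hL := h2 x b2
  set L := Real.log x with hLd
  have hDr : (0 : ℝ) ≤ Dm := Nat.cast_nonneg _
  have hc1n : 1 ≤ c1 := by rw [hc1]; unfold cs; omega
  have hc1r : (1 : ℝ) ≤ c1 := by exact_mod_cast hc1n
  have hlc1 : 0 ≤ Real.log c1 := Real.log_nonneg hc1r
  have hBr : (1 : ℝ) ≤ B := by exact_mod_cast hB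
  have q3 : 0 ≤ (r : ℝ) * ((Dm + 2) ^ 2) ^ r * B := by positivity
  have hL1 : 1 ≤ L := by rw [hC2] at hL; linarith
  have hL0 : 0 < L := by linarith
  have hLc : Real.log c1 ≤ L := by rw [hC2] at hL; linarith
  have hLd' : (r : ℝ) * ((Dm + 2) ^ 2) ^ r * B ≤ L := by rw [hC2] at hL; linarith
  have hz : 1 ≤ z := by
    have : (1 : ℝ) ≤ z := (one_le_pow₀ hL1).trans hz1
    exact_mod_cast this
  have hV := h3 x b3 z hz hz2
  have hdD : ∀ i, d i ≤ Dm := fun i => le_sup (f := d) (mem_univ i)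
  have hA1 : ∀ i, 1 ≤ A i := by
    intro i
    rcases Nat.eq_zero_or_pos (A i) with h | h
    · have h4 := (hA i).2
      rw [h, mul_zero] at h4
      have : 1 ≤ x ^ d i := Nat.one_le_pow _ _ (by omega)
      omega
    · exact h
  set M : ℝ := (Dm + 2) * L with hM
  have hM1 : 1 ≤ M := by rw [hM]; nlinarith
  have hVM : (Vz z)⁻¹ ≤ M := hV.trans (by rw [hM]; nlinarith)
  have hlogX : ∀ i, Real.log ((c1 * x ^ d i : ℕ) : ℝ) ≤ M := by
    intro i
    push_cast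
    rw [Real.log_mul (by linarith) (by positivity), Real.log_pow]
    have h3 : ((d i : ℕ) : ℝ) * L ≤ Dm * L := mul_le_mul_of_nonneg_right (by exact_mod_cast hdD i) hL0.le
    rw [hM]
    linarith
  have hXi1 : ∀ i, 1 ≤ c1 * x ^ d i := fun i => Nat.mul_pos (by omega) (Nat.one_le_pow _ _ (by omega))
  have hlam : ∀ i, ∀ w : ℤ, w ≤ ((c1 * x ^ d i : ℕ) : ℤ) → lamI w ≤ M := by
    intro i w hw
    refine (lamI_le _ ((c1 * x ^ d i : ℕ) : ℝ) (by exact_mod_cast hXi1 i) ?_).trans (hlogX i)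
    exact_mod_cast hw
  have key := tele x A hA1 (fun i n v => gP (F i) (G i) (y i) (s i) n v) (fun i n v => gQ (F i) (G i) z (y i) (s i) n v)
    (M ^ 2) (x * B / L ^ U') (one_le_pow₀ hM1) (by positivity) (by
      intro i n hn v hv
      rw [mem_Icc] at hv
      unfold gP
      apply avg_le
      · positivity
      · intro m hm
        have h4 := val_le F G d hD B x i v (s i m) n hn (hv.2.trans (hA i).1) (hs.s0 i m hm).2
        refine ⟨mul_nonneg (lamI_nonneg _) (lamI_nonneg _), ?_⟩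
        rw [sq]
        exact mul_le_mul (hlam i _ h4.1) (hlam i _ h4.2) (lamI_nonneg _) (by linarith)) (by
      intro i n hn v hv
      unfold gQ
      apply avg_le
      · positivity
      · intro m hm
        refine ⟨mul_nonneg (lamzI_nonneg _ _) (lamzI_nonneg _ _), ?_⟩
        rw [sq]
        exact mul_le_mul ((lamzI_le z _).trans hVM) ((lamzI_le z _).trans hVM) (lamzI_nonneg _ _) (by linarith)) (by
      intro i K hK g hg
      have hy0 : (0 : ℝ) < y i := by exact_mod_cast hs.y1 i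
      have hzl : L ^ B0 i ≤ z := by
        refine le_trans ?_ hz1
        exact pow_le_pow_right₀ hL1 (le_sup (f := B0) (mem_univ i))
      have h4 := hN0 i x ((le_sup (f := N0) (mem_univ i)).trans b0) z hzl hz2 (y i) (s i) (hs.s0 i) (hs.en i) (A i) (hA i).1 K hK g hg
      have h5 : ∀ v ∈ Icc 1 (A i), |∑ n ∈ Icc 1 x, g n * (gP (F i) (G i) (y i) (s i) n v - gQ (F i) (G i) z (y i) (s i) n v)| =
          |∑ n ∈ Icc 1 x, g n * dif (F i) (G i) z (y i) (s i) v n| / y i := by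
        intro v _
        have e7 : |∑ n ∈ Icc 1 x, g n * dif (F i) (G i) z (y i) (s i) v n| / y i =
            |(∑ n ∈ Icc 1 x, g n * dif (F i) (G i) z (y i) (s i) v n) / y i| := by
          rw [abs_div, abs_of_pos hy0]
        rw [e7]
        congr 1
        rw [sum_div]
        apply sum_congr rfl
        intro n _
        rw [gP_sub]
        ring
      rw [sum_congr rfl h5, ← sum_div, div_le_iff₀ hy0]
      refine h4.trans ?_
      rw [mul_assoc K]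
      apply mul_le_mul_of_nonneg_left _ hK.le
      have h6 : (x : ℝ) ^ d i ≤ B * A i := by exact_mod_cast (hA i).2
      calc (x : ℝ) ^ d i * y i * x / L ^ U' ≤ (B * A i) * y i * x / L ^ U' := by gcongr
        _ = _ := by ring)
    univ L hL0 (fun n _ => H n) (by
      intro n hn m _
      exact hH n hn) (by
      intro n m v i _; rfl)
  refine key.trans ?_
  rw [card_univ, Fintype.card_fin]
  have hprod : 0 ≤ ∏ i, (A i : ℝ) := prod_nonneg fun _ _ => Nat.cast_nonneg _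
  calc (r : ℝ) * (L * (M ^ 2) ^ r * (x * B / L ^ U')) * ∏ i, (A i : ℝ)
      = ((r : ℝ) * ((Dm + 2) ^ 2) ^ r * B / L) * (x * (∏ i, (A i : ℝ)) / L ^ U) := by
        have e : L ^ U' = L ^ U * (L ^ 2) ^ r * L * L := by rw [hU', pow_add, pow_add, pow_mul]; ring
        rw [hM, mul_pow ((Dm : ℝ) + 2) L 2, mul_pow, e]
        field_simp
    _ ≤ 1 * (x * (∏ i, (A i : ℝ)) / L ^ U) := by
        apply mul_le_mul_of_nonneg_right _ (by positivity)
        rw [div_le_one hL0]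
        exact hLd'
    _ = _ := one_mul _

end Pool.Agent.Y871.PT
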