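import Mathlib
import Pool.Agent.Y871.PT.Three

/-! Several pairs: sums over the families. -/

namespace Pool.Agent.Y871.PT
open Finset Polynomial
open Pool.Agent.H373R2.T7

/-- all the polynomials -/
noncomputable def FF {r : ℕ} (F G : Fin r → ℤ[X]) : Fin (r + r) → ℤ[X] := Fin.append F G

/-- all the shifts -/
def aa {r : ℕ} (k : Fin r → ℕ) : Fin (r + r) → ℕ := Fin.append k k

/-- the signs -/
def sg (r : ℕ) : Fin (r + r) → ℤ := fun _ => 1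

/-- the shifts in the families -/
def kv {r : ℕ} (s : Fin r → ℕ → ℤ) (b m : Fin r → ℕ) : Fin r → ℕ := fun i => ((b i : ℤ) + s i (m i)).toNat

/-- boxes -/
def bx {r : ℕ} (A : Fin r → ℕ) : Finset (Fin r → ℕ) := Fintype.piFinset (fun i => Icc 1 (A i))

/-- the values -/
noncomputable def vv {r : ℕ} (F G : Fin r → ℤ[X]) (k : Fin r → ℕ) (j : Fin (r + r)) (n : ℕ) : ℤ := vl (FF F G) (sg r) (aa k) j n

lemma vv_left {r : ℕ} (F G : Fin r → ℤ[X]) (k : Fin r → ℕ) (i : Fin r) (n : ℕ) :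
    vv F G k (Fin.castAdd r i) n = (k i : ℤ) + (F i).eval (n : ℤ) := by
  unfold vv vl FF aa sg
  rw [Fin.append_left, Fin.append_left, one_mul]

lemma vv_right {r : ℕ} (F G : Fin r → ℤ[X]) (k : Fin r → ℕ) (i : Fin r) (n : ℕ) :
    vv F G k (Fin.natAdd r i) n = (k i : ℤ) + (G i).eval (n : ℤ) := by
  unfold vv vl FF aa sg
  rw [Fin.append_right, Fin.append_right, one_mul]

lemma prod_vv {r : ℕ} (F G : Fin r → ℤ[X]) (k : Fin r → ℕ) (n : ℕ) (φ : ℤ → ℝ) :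
    ∏ j, φ (vv F G k j n) = ∏ i, (φ ((k i : ℤ) + (F i).eval (n : ℤ)) * φ ((k i : ℤ) + (G i).eval (n : ℤ))) := by
  rw [Fin.prod_univ_add, prod_mul_distrib]
  congr 1
  · apply prod_congr rfl
    intro i _
    rw [vv_left]
  · apply prod_congr rfl
    intro i _
    rw [vv_right]

lemma sum_vv {r : ℕ} (F G : Fin r → ℤ[X]) (k : Fin r → ℕ) (n : ℕ) (φ : ℤ → ℝ) :
    ∑ j, φ (vv F G k j n) = ∑ i, (φ ((k i : ℤ) + (F i).eval (n : ℤ)) + φ ((k i : ℤ) + (G i).eval (n : ℤ))) := by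
  rw [Fin.sum_univ_add, sum_add_distrib]
  congr 1
  · apply sum_congr rfl
    intro i _
    rw [vv_left]
  · apply sum_congr rfl
    intro i _
    rw [vv_right]

lemma kv_cast {r : ℕ} {d : Fin r → ℕ} {B : ℕ} {p : Fin r → ℕ} {C x : ℕ} {y : Fin r → ℕ} {s : Fin r → ℕ → ℤ} (hs : Fml d B p C x y s)
    {b m : Fin r → ℕ} {A : Fin r → ℕ} (hb : b ∈ bx A) (hm : m ∈ bx y) (i : Fin r) :
    ((kv s b m i : ℕ) : ℤ) = b i + s i (m i) ∧ 1 ≤ kv s b m i := by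
  unfold bx at hb hm
  rw [Fintype.mem_piFinset] at hb hm
  have h1 := mem_Icc.1 (hb i)
  have h2 := hs.s0 i (m i) (hm i)
  unfold kv
  have h3 : (1 : ℤ) ≤ b i := by exact_mod_cast h1.1
  constructor
  · rw [Int.toNat_of_nonneg (by linarith [h2.1])]
  · have : 1 ≤ (b i : ℤ) + s i (m i) := by linarith [h2.1]
    omega

lemma gP_prod {r : ℕ} {F G : Fin r → ℤ[X]} {d : Fin r → ℕ} {B : ℕ} {p : Fin r → ℕ} {C x : ℕ} {y : Fin r → ℕ} {s : Fin r → ℕ → ℤ} (hs : Fml d B p C x y s)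
    {b : Fin r → ℕ} {A : Fin r → ℕ} (hb : b ∈ bx A) (n : ℕ) :
    ∏ i, gP (F i) (G i) (y i) (s i) n (b i) = (∑ m ∈ bx y, ∏ j, lamI (vv F G (kv s b m) j n)) / ∏ i, (y i : ℝ) := by
  unfold gP
  rw [prod_div_distrib, prod_univ_sum]
  congr 1
  apply sum_congr rfl
  intro m hm
  rw [prod_vv]
  apply prod_congr rfl
  intro i _
  rw [(kv_cast hs hb hm i).1]

lemma gQ_prod {r : ℕ} {F G : Fin r → ℤ[X]} {d : Fin r → ℕ} {B : ℕ} {p : Fin r → ℕ} {C x : ℕ} {y : Fin r → ℕ} {s : Fin r → ℕ → ℤ} (hs : Fml d B p C x y s)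
    {b : Fin r → ℕ} {A : Fin r → ℕ} (hb : b ∈ bx A) (z n : ℕ) :
    ∏ i, gQ (F i) (G i) z (y i) (s i) n (b i) = (∑ m ∈ bx y, ∏ j, lamzI z (vv F G (kv s b m) j n)) / ∏ i, (y i : ℝ) := by
  unfold gQ
  rw [prod_div_distrib, prod_univ_sum]
  congr 1
  apply sum_congr rfl
  intro m hm
  rw [prod_vv]
  apply prod_congr rfl
  intro i _
  rw [(kv_cast hs hb hm i).1]

theorem multi_J {r : ℕ} (F G : Fin r → ℤ[X]) (d : Fin r → ℕ) (hD : Dat F G d) (B : ℕ) (hB : 1 ≤ B) (p : Fin r → ℕ) (C U : ℕ) :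
    ∃ B0 : ℕ, ∀ E : ℕ, ∃ N0 : ℕ, ∀ x : ℕ, N0 ≤ x → ∀ z : ℕ, Real.log x ^ B0 ≤ z → (z : ℝ) ≤ Real.log x ^ E →
    ∀ A : Fin r → ℕ, (∀ i, A i ≤ B * x ^ d i ∧ x ^ d i ≤ B * A i) →
    ∀ (y : Fin r → ℕ) (s : Fin r → ℕ → ℤ), Fml d B p C x y s →
    ∀ H : ℕ → ℝ, (∀ n ∈ Icc 1 x, |H n| ≤ Real.log x) →
    ∑ b ∈ bx A, |∑ m ∈ bx y, ∑ n ∈ Icc 1 x, H n *
        (∏ j, lamI (vv F G (kv s b m) j n) - ∏ j, lamzI z (vv F G (kv s b m) j n))| ≤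
        x * (∏ i, (A i : ℝ)) * (∏ i, (y i : ℝ)) / Real.log x ^ U := by
  obtain ⟨B0, h0⟩ := multi_I F G d hD B hB p C U
  refine ⟨B0, fun E => ?_⟩
  obtain ⟨N0, h1⟩ := h0 E
  refine ⟨N0, fun x hx z hz1 hz2 A hA y s hs H hH => ?_⟩
  have key := h1 x hx z hz1 hz2 A hA y s hs H hH
  have hy : 0 < ∏ i, (y i : ℝ) := prod_pos fun i _ => by exact_mod_cast hs.y1 i
  have e1 : ∀ b ∈ bx A, |∑ n ∈ Icc 1 x, H n *
        (∏ i, gP (F i) (G i) (y i) (s i) n (b i) - ∏ i, gQ (F i) (G i) z (y i) (s i) n (b i))| =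
      |∑ m ∈ bx y, ∑ n ∈ Icc 1 x, H n *
        (∏ j, lamI (vv F G (kv s b m) j n) - ∏ j, lamzI z (vv F G (kv s b m) j n))| / ∏ i, (y i : ℝ) := by
    intro b hb
    have e7 : |∑ m ∈ bx y, ∑ n ∈ Icc 1 x, H n *
        (∏ j, lamI (vv F G (kv s b m) j n) - ∏ j, lamzI z (vv F G (kv s b m) j n))| / ∏ i, (y i : ℝ) =
        |(∑ m ∈ bx y, ∑ n ∈ Icc 1 x, H n *
        (∏ j, lamI (vv F G (kv s b m) j n) - ∏ j, lamzI z (vv F G (kv s b m) j n))) / ∏ i, (y i : ℝ)| := by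
      rw [abs_div, abs_of_pos hy]
    rw [e7]
    congr 1
    rw [sum_comm, sum_div]
    apply sum_congr rfl
    intro n _
    rw [gP_prod hs hb, gQ_prod hs hb, ← sub_div, ← sum_sub_distrib, mul_div_assoc', mul_sum]
  change ∑ b ∈ bx A, _ ≤ _ at key
  rw [sum_congr rfl e1, ← sum_div, div_le_iff₀ hy] at key
  refine key.trans (le_of_eq ?_)
  ring

end Pool.Agent.Y871.PT
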