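import Mathlib
import Pool.Agent.Y871.PT.Four

/-! Several pairs: from prime powers to primes, and the model. -/

namespace Pool.Agent.Y871.PT
open Finset Polynomial
open Pool.Agent.H373R2.T7

lemma A_pos {r : ℕ} {d A : Fin r → ℕ} {B x : ℕ} (hx : 1 ≤ x) (hA : ∀ i, A i ≤ B * x ^ d i ∧ x ^ d i ≤ B * A i) (i : Fin r) :
    1 ≤ A i := by
  rcases Nat.eq_zero_or_pos (A i) with h | h
  · have h4 := (hA i).2
    rw [h, mul_zero] at h4
    have : 1 ≤ x ^ d i := Nat.one_le_pow _ _ (by omega)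
    omega
  · exact h

lemma card_bx {r : ℕ} (A : Fin r → ℕ) : ((bx A).card : ℝ) = ∏ i, (A i : ℝ) := card_box A

set_option maxHeartbeats 1000000 in
/-- from prime powers to primes -/
theorem multi_P {r : ℕ} (F G : Fin r → ℤ[X]) (d : Fin r → ℕ) (hD : Dat F G d) (B : ℕ) (hB : 1 ≤ B) (p : Fin r → ℕ) (C U : ℕ) :
    ∃ N0 : ℕ, ∀ x : ℕ, N0 ≤ x →
    ∀ A : Fin r → ℕ, (∀ i, A i ≤ B * x ^ d i ∧ x ^ d i ≤ B * A i) →
    ∀ (y : Fin r → ℕ) (s : Fin r → ℕ → ℤ), Fml d B p C x y s →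
    ∀ H : ℕ → ℝ, (∀ n ∈ Icc 1 x, |H n| ≤ Real.log x) →
    ∑ b ∈ bx A, ∑ m ∈ bx y, |∑ n ∈ Icc 1 x, H n *
        (∏ j, lamI (vv F G (kv s b m) j n) - ∏ j, lamP (vv F G (kv s b m) j n))| ≤
        x * (∏ i, (A i : ℝ)) * (∏ i, (y i : ℝ)) / Real.log x ^ U := by
  classical
  set D : ℕ := univ.sup d with hDm
  set c1 : ℕ := cs F G B with hc1
  obtain ⟨n1, h1⟩ := ev_log' (2 * r + U + 2) (2 * (2 * √(c1 : ℝ) * (D + 2) ^ (2 * r + 1) * r * B))
  obtain ⟨n2, h2⟩ := ev_L' (Real.log c1 + 1)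
  refine ⟨max (max n1 n2) 3, fun x hx A hA y s hs H hH => ?_⟩
  have b1 := le_trans (le_trans (le_max_left _ _) (le_max_left _ _)) hx
  have b2 := le_trans (le_trans (le_max_right _ _) (le_max_left _ _)) hx
  have hx3 : 3 ≤ x := le_trans (le_max_right _ _) hx
  have hxr : (3 : ℝ) ≤ x := by exact_mod_cast hx3
  have hx0 : (0 : ℝ) < x := by linarith
  have a1 := h1 x b1
  have hL := h2 x b2
  set L := Real.log x with hLd
  have hc1n : 1 ≤ c1 := by rw [hc1]; unfold cs; omega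
  have hc1r : (1 : ℝ) ≤ c1 := by exact_mod_cast hc1n
  have hlc1 : 0 ≤ Real.log c1 := Real.log_nonneg hc1r
  have hL1 : 1 ≤ L := by linarith
  have hL0 : 0 < L := by linarith
  have hDr : (0 : ℝ) ≤ D := Nat.cast_nonneg _
  have hBr : (1 : ℝ) ≤ B := by exact_mod_cast hB
  have hdD : ∀ i, d i ≤ D := fun i => le_sup (f := d) (mem_univ i)
  have hd1 : ∀ i, 1 ≤ d i := fun i => (hD.dF i).trans (hD.leF i)
  have hA1 : ∀ i, 1 ≤ A i := A_pos (by omega) hA
  set M : ℝ := (D + 2) * L with hM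
  have hM1 : 1 ≤ M := by rw [hM]; nlinarith
  have hlogX : ∀ i, Real.log ((c1 * x ^ d i : ℕ) : ℝ) ≤ M := by
    intro i
    push_cast
    rw [Real.log_mul (by linarith) (by positivity), Real.log_pow]
    have h3 : ((d i : ℕ) : ℝ) * L ≤ D * L := mul_le_mul_of_nonneg_right (by exact_mod_cast hdD i) hL0.le
    rw [hM]
    linarith
  have hXi1 : ∀ i, 1 ≤ c1 * x ^ d i := fun i => Nat.mul_pos (by omega) (Nat.one_le_pow _ _ (by omega))
  have hlam : ∀ i, ∀ w : ℤ, w ≤ ((c1 * x ^ d i : ℕ) : ℤ) → lamI w ≤ M := by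
    intro i w hw
    refine (lamI_le _ ((c1 * x ^ d i : ℕ) : ℝ) (by exact_mod_cast hXi1 i) ?_).trans (hlogX i)
    exact_mod_cast hw
  have hval : ∀ b ∈ bx A, ∀ m ∈ bx y, ∀ n ∈ Icc 1 x, ∀ j, lamI (vv F G (kv s b m) j n) ≤ M := by
    intro b hb m hm n hn j
    have hb' := Fintype.mem_piFinset.1 hb
    have hm' := Fintype.mem_piFinset.1 hm
    refine Fin.addCases (fun i => ?_) (fun i => ?_) j
    · rw [vv_left, (kv_cast hs hb hm i).1]
      exact hlam i _ (val_le F G d hD B x i (b i) (s i (m i)) n hn ((mem_Icc.1 (hb' i)).2.trans (hA i).1) (hs.s0 i _ (hm' i)).2).1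
    · rw [vv_right, (kv_cast hs hb hm i).1]
      exact hlam i _ (val_le F G d hD B x i (b i) (s i (m i)) n hn ((mem_Icc.1 (hb' i)).2.trans (hA i).1) (hs.s0 i _ (hm' i)).2).2
  have hstep : ∀ b ∈ bx A, ∀ m ∈ bx y, |∑ n ∈ Icc 1 x, H n *
        (∏ j, lamI (vv F G (kv s b m) j n) - ∏ j, lamP (vv F G (kv s b m) j n))| ≤
      ∑ n ∈ Icc 1 x, L * (M ^ (r + r) * ∑ j, (lamI (vv F G (kv s b m) j n) - lamP (vv F G (kv s b m) j n))) := by
    intro b hb m hm
    refine (abs_sum_le_sum_abs _ _).trans (sum_le_sum fun n hn => ?_)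
    obtain ⟨h3, h4⟩ := prod_sub_le univ (fun j => lamI (vv F G (kv s b m) j n)) (fun j => lamP (vv F G (kv s b m) j n)) M hM1
      (fun j _ => lamP_nonneg _) (fun j _ => lamP_le _) (fun j _ => hval b hb m hm n hn j)
    rw [card_univ, Fintype.card_fin] at h4
    rw [abs_mul, abs_of_nonneg h3]
    exact mul_le_mul (hH n hn) h4 h3 hL0.le
  refine (sum_le_sum fun b hb => sum_le_sum fun m hm => hstep b hb m hm).trans ?_
  rw [sum_comm]
  have hAp : 0 ≤ ∏ i, (A i : ℝ) := prod_nonneg fun _ _ => Nat.cast_nonneg _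
  have hm : ∀ m ∈ bx y, ∑ b ∈ bx A, ∑ n ∈ Icc 1 x, L * (M ^ (r + r) * ∑ j, (lamI (vv F G (kv s b m) j n) - lamP (vv F G (kv s b m) j n))) ≤
      x * (∏ i, (A i : ℝ)) / L ^ U := by
    intro m hm
    have hm' := Fintype.mem_piFinset.1 hm
    rw [sum_comm]
    have hn : ∀ n ∈ Icc 1 x, ∑ b ∈ bx A, L * (M ^ (r + r) * ∑ j, (lamI (vv F G (kv s b m) j n) - lamP (vv F G (kv s b m) j n))) ≤
        (∏ i, (A i : ℝ)) / L ^ U := by
      intro n hn
      rw [← mul_sum, ← mul_sum]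
      have e0 : ∑ b ∈ bx A, ∑ j, (lamI (vv F G (kv s b m) j n) - lamP (vv F G (kv s b m) j n)) =
          ∑ i, ∑ b ∈ bx A, ((lamI ((b i : ℤ) + (s i (m i) + (F i).eval (n : ℤ))) - lamP ((b i : ℤ) + (s i (m i) + (F i).eval (n : ℤ)))) +
            (lamI ((b i : ℤ) + (s i (m i) + (G i).eval (n : ℤ))) - lamP ((b i : ℤ) + (s i (m i) + (G i).eval (n : ℤ))))) := by
        rw [sum_comm (s := (univ : Finset (Fin r)))]
        apply sum_congr rfl
        intro b hb
        rw [sum_vv F G (kv s b m) n (fun w => lamI w - lamP w)]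
        apply sum_congr rfl
        intro i _
        rw [(kv_cast hs hb hm i).1]
        simp only [add_assoc]
      rw [e0]
      have hi : ∀ i ∈ (univ : Finset (Fin r)), ∑ b ∈ bx A, ((lamI ((b i : ℤ) + (s i (m i) + (F i).eval (n : ℤ))) - lamP ((b i : ℤ) + (s i (m i) + (F i).eval (n : ℤ)))) +
            (lamI ((b i : ℤ) + (s i (m i) + (G i).eval (n : ℤ))) - lamP ((b i : ℤ) + (s i (m i) + (G i).eval (n : ℤ))))) ≤
          (1 / (L * M ^ (r + r) * r * L ^ U)) * ∏ i, (A i : ℝ) := by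
        intro i _
        have hk0 : (0 : ℝ) < r := by
          have : 0 < r := Fin.pos i
          exact_mod_cast this
        apply sum_coord A hA1 i (fun v => (lamI ((v : ℤ) + (s i (m i) + (F i).eval (n : ℤ))) - lamP ((v : ℤ) + (s i (m i) + (F i).eval (n : ℤ)))) +
            (lamI ((v : ℤ) + (s i (m i) + (G i).eval (n : ℤ))) - lamP ((v : ℤ) + (s i (m i) + (G i).eval (n : ℤ)))))
        rw [sum_add_distrib]
        have h3 := pp_sum (A i) (c1 * x ^ d i) (s i (m i) + (F i).eval (n : ℤ)) (hXi1 i) (fun v hv => by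
          rw [← add_assoc]
          exact (val_le F G d hD B x i v (s i (m i)) n hn ((mem_Icc.1 hv).2.trans (hA i).1) (hs.s0 i _ (hm' i)).2).1)
        have h3' := pp_sum (A i) (c1 * x ^ d i) (s i (m i) + (G i).eval (n : ℤ)) (hXi1 i) (fun v hv => by
          rw [← add_assoc]
          exact (val_le F G d hD B x i v (s i (m i)) n hn ((mem_Icc.1 hv).2.trans (hA i).1) (hs.s0 i _ (hm' i)).2).2)
        refine (add_le_add h3 h3').trans ?_
        rw [one_div, ← div_eq_inv_mul, le_div_iff₀ (by positivity)]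
        set t : ℝ := √((x : ℝ) ^ d i) with ht
        have ht0 : 0 ≤ t := Real.sqrt_nonneg _
        have e1 : √(((c1 * x ^ d i : ℕ) : ℝ)) = √(c1 : ℝ) * t := by
          push_cast
          rw [Real.sqrt_mul (by linarith)]
        have e2 : t * t ≤ B * A i := by
          rw [ht, Real.mul_self_sqrt (by positivity)]
          exact_mod_cast (hA i).2
        have e3 : √(x : ℝ) ≤ t := by
          rw [ht]
          apply Real.sqrt_le_sqrt
          calc (x : ℝ) = x ^ 1 := (pow_one _).symm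
            _ ≤ (x : ℝ) ^ d i := pow_le_pow_right₀ (by linarith) (hd1 i)
        rw [e1, ← two_mul]
        have e4 : 2 * (2 * (√(c1 : ℝ) * t) * Real.log ((c1 * x ^ d i : ℕ) : ℝ)) * (L * M ^ (r + r) * r * L ^ U) ≤
            2 * (2 * (√(c1 : ℝ) * t) * M) * (L * M ^ (r + r) * r * L ^ U) := by
          apply mul_le_mul_of_nonneg_right _ (by positivity)
          apply mul_le_mul_of_nonneg_left _ (by norm_num)
          exact mul_le_mul_of_nonneg_left (hlogX i) (by positivity)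
        refine e4.trans ?_
        have e5 : 2 * (2 * (√(c1 : ℝ) * t) * M) * (L * M ^ (r + r) * r * L ^ U) =
            t * ((2 * (2 * √(c1 : ℝ) * (D + 2) ^ (2 * r + 1) * r * B)) * L ^ (2 * r + U + 2)) / B := by
          rw [hM, mul_pow, show r + r = 2 * r by ring]
          field_simp
          ring
        rw [e5, div_le_iff₀ (by linarith)]
        calc t * ((2 * (2 * √(c1 : ℝ) * (D + 2) ^ (2 * r + 1) * r * B)) * L ^ (2 * r + U + 2)) ≤ t * t :=
              mul_le_mul_of_nonneg_left (a1.trans e3) ht0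
          _ ≤ _ := by linarith
      have h3 := sum_le_sum hi
      rw [sum_const, card_univ, Fintype.card_fin, nsmul_eq_mul] at h3
      rcases Nat.eq_zero_or_pos r with hk | hk
      · subst hk
        simp only [univ_eq_empty, sum_empty, mul_zero]
        positivity
      · have hk0 : (0 : ℝ) < r := by exact_mod_cast hk
        calc L * (M ^ (r + r) * _) ≤ L * (M ^ (r + r) * (r * ((1 / (L * M ^ (r + r) * r * L ^ U)) * ∏ i, (A i : ℝ)))) := by
              apply mul_le_mul_of_nonneg_left _ hL0.le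
              exact mul_le_mul_of_nonneg_left h3 (by positivity)
          _ = _ := by field_simp
    refine (sum_le_sum hn).trans (le_of_eq ?_)
    rw [sum_const, nsmul_eq_mul, Nat.card_Icc, Nat.add_sub_cancel]
    ring
  refine (sum_le_sum hm).trans (le_of_eq ?_)
  rw [sum_const, nsmul_eq_mul, card_bx]
  ring

end Pool.Agent.Y871.PT
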