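import Mathlib
import Pool.Agent.Y871.PT.Five

/-! Several pairs: the weighted `L¹` theorem. -/

namespace Pool.Agent.Y871.PT
open Finset Polynomial
open Pool.Agent.H373R2.T7

/-- the truncated singular series -/
noncomputable def sgv {r : ℕ} (F G : Fin r → ℤ[X]) (z : ℕ) (k : Fin r → ℕ) : ℝ :=
  ((Vz z)⁻¹) ^ (r + r) * ∏ p ∈ pz z, (1 - (nuB (sysQ (FF F G) (sg r) (aa k)) p : ℝ) / p)

lemma FF_deg {r : ℕ} {F G : Fin r → ℤ[X]} {d : Fin r → ℕ} (hD : Dat F G d) (j : Fin (r + r)) : 1 ≤ (FF F G j).natDegree := by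
  unfold FF
  refine Fin.addCases (fun i => ?_) (fun i => ?_) j
  · rw [Fin.append_left]; exact hD.dF i
  · rw [Fin.append_right]; exact hD.dG i

lemma FF_lead {r : ℕ} {F G : Fin r → ℤ[X]} {d : Fin r → ℕ} (hD : Dat F G d) (j : Fin (r + r)) : 0 < (FF F G j).leadingCoeff := by
  unfold FF
  refine Fin.addCases (fun i => ?_) (fun i => ?_) j
  · rw [Fin.append_left]; exact hD.lF i
  · rw [Fin.append_right]; exact hD.lG i

lemma aa_pos {r : ℕ} {k : Fin r → ℕ} (hk : ∀ i, 1 ≤ k i) (j : Fin (r + r)) : 1 ≤ aa k j := by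
  unfold aa
  refine Fin.addCases (fun i => ?_) (fun i => ?_) j
  · rw [Fin.append_left]; exact hk i
  · rw [Fin.append_right]; exact hk i

lemma sg_one (r : ℕ) (j : Fin (r + r)) : sg r j = 1 ∨ sg r j = -1 := Or.inl rfl

lemma sgv_nonneg {r : ℕ} (F G : Fin r → ℤ[X]) (z : ℕ) (k : Fin r → ℕ) : 0 ≤ sgv F G z k := by
  unfold sgv
  apply mul_nonneg
  · exact pow_nonneg (inv_pos.2 (Vz_pos z)).le _
  · exact (wd_one (sysC (FF F G)) (sysC_pos _)).d0 _ z

lemma sgv_le {r : ℕ} (F G : Fin r → ℤ[X]) (z : ℕ) (k : Fin r → ℕ) (L : ℝ) (hV : (Vz z)⁻¹ ≤ L) :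
    sgv F G z k ≤ L ^ (r + r) := by
  unfold sgv
  have h0 := (inv_pos.2 (Vz_pos z)).le
  calc _ ≤ L ^ (r + r) * 1 := by
        apply mul_le_mul (pow_le_pow_left₀ h0 hV _) ((wd_one (sysC (FF F G)) (sysC_pos _)).d1 _ z)
          ((wd_one (sysC (FF F G)) (sysC_pos _)).d0 _ z) (pow_nonneg (h0.trans hV) _)
    _ = _ := mul_one _

lemma pos_bd {r : ℕ} (F G : Fin r → ℤ[X]) (d : Fin r → ℕ) (hD : Dat F G d) : ∃ n0 : ℕ, ∀ k : Fin r → ℕ, (∀ i, 1 ≤ k i) →
    ∀ x : ℕ, |(posCount (FF F G) (sg r) (aa k) x : ℝ) - x| ≤ n0 := by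
  classical
  choose n0 h0 _ using fun j => ev_mono (FF F G j) (FF_deg hD j) (FF_lead hD j)
  refine ⟨univ.sup n0, fun k hk x => ?_⟩
  have h1 : posCount (FF F G) (sg r) (aa k) x ≤ x := by
    unfold posCount
    exact (card_filter_le _ _).trans (by rw [Nat.card_Icc]; omega)
  have h2 : x ≤ posCount (FF F G) (sg r) (aa k) x + univ.sup n0 := by
    unfold posCount
    calc x = (Icc 1 x).card := by rw [Nat.card_Icc]; omega
      _ ≤ ((Icc 1 x).filter (fun n => ∀ i, 1 ≤ vl (FF F G) (sg r) (aa k) i n) ∪ range (univ.sup n0)).card := by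
          apply card_le_card
          intro n hn
          rw [mem_union, mem_filter, mem_range]
          rcases Nat.lt_or_ge n (univ.sup n0) with h | h
          · exact Or.inr h
          · refine Or.inl ⟨hn, fun j => ?_⟩
            have h3 := h0 j n ((le_sup (f := n0) (mem_univ j)).trans h)
            have h4 := aa_pos hk j
            unfold vl sg
            have h5 : (1 : ℤ) ≤ aa k j := by exact_mod_cast h4
            linarith
      _ ≤ _ := (card_union_le _ _).trans (by rw [card_range])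
  have h1' : (posCount (FF F G) (sg r) (aa k) x : ℝ) ≤ x := by exact_mod_cast h1
  have h2' : (x : ℝ) ≤ posCount (FF F G) (sg r) (aa k) x + (univ.sup n0 : ℕ) := by exact_mod_cast h2
  rw [abs_le]
  constructor <;> linarith

set_option maxHeartbeats 1000000 in
theorem multi_W {r : ℕ} (F G : Fin r → ℤ[X]) (d : Fin r → ℕ) (hD : Dat F G d) (B : ℕ) (hB : 1 ≤ B) (p : Fin r → ℕ) (C U : ℕ) :
    ∃ B0 : ℕ, ∀ E : ℕ, ∃ N0 : ℕ, ∀ x : ℕ, N0 ≤ x → ∀ z : ℕ, Real.log x ^ B0 ≤ z → (z : ℝ) ≤ Real.log x ^ E →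
    ∀ A : Fin r → ℕ, (∀ i, A i ≤ B * x ^ d i ∧ x ^ d i ≤ B * A i) →
    ∀ (y : Fin r → ℕ) (s : Fin r → ℕ → ℤ), Fml d B p C x y s →
    ∑ b ∈ bx A, |∑ m ∈ bx y, (∑ n ∈ Icc 1 x, ∏ j, lamP (vv F G (kv s b m) j n) - sgv F G z (kv s b m) * x)| ≤
        x * (∏ i, (A i : ℝ)) * (∏ i, (y i : ℝ)) / Real.log x ^ U := by
  classical
  obtain ⟨B0, h0⟩ := multi_J F G d hD B hB p C (U + 2)
  refine ⟨B0, fun E => ?_⟩
  obtain ⟨n1, h1⟩ := h0 E
  obtain ⟨n2, h2⟩ := multi_P F G d hD B hB p C (U + 2)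
  obtain ⟨n3, h3⟩ := sys_model (FF F G) (FF_deg hD) (FF_lead hD) (sg r) (sg_one r) (fun _ => 1) _
    (wd_one (sysC (FF F G)) (sysC_pos _)) E (U + 2)
  obtain ⟨n4, h4⟩ := pos_bd F G d hD
  obtain ⟨n5, h5⟩ := ev_log' (r + r + (U + 2)) (n4 + 1)
  obtain ⟨n6, h6⟩ := ev_L' 2
  obtain ⟨n7, h7⟩ := Vz_inv_small E
  refine ⟨max (max (max n1 n2) (max n3 n5)) (max (max n6 n7) 3), fun x hx z hz1 hz2 A hA y s hs => ?_⟩
  have b1 := le_trans (le_trans (le_trans (le_max_left _ _) (le_max_left _ _)) (le_max_left _ _)) hx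
  have b2 := le_trans (le_trans (le_trans (le_max_right _ _) (le_max_left _ _)) (le_max_left _ _)) hx
  have b3 := le_trans (le_trans (le_trans (le_max_left _ _) (le_max_right _ _)) (le_max_left _ _)) hx
  have b5 := le_trans (le_trans (le_trans (le_max_right _ _) (le_max_right _ _)) (le_max_left _ _)) hx
  have b6 := le_trans (le_trans (le_trans (le_max_left _ _) (le_max_left _ _)) (le_max_right _ _)) hx
  have b7 := le_trans (le_trans (le_trans (le_max_right _ _) (le_max_left _ _)) (le_max_right _ _)) hx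
  have hx3 : 3 ≤ x := le_trans (le_trans (le_max_right _ _) (le_max_right _ _)) hx
  have hxr : (3 : ℝ) ≤ x := by exact_mod_cast hx3
  have hx0 : (0 : ℝ) < x := by linarith
  have hL := h6 x b6
  have hsm := h5 x b5
  set L := Real.log x with hLd
  have hL1 : 1 ≤ L := by linarith
  have hL0 : 0 < L := by linarith
  have hz : 1 ≤ z := by
    have : (1 : ℝ) ≤ z := (one_le_pow₀ hL1).trans hz1
    exact_mod_cast this
  have hV := h7 x b7 z hz hz2
  have hAp : 0 ≤ ∏ i, (A i : ℝ) := prod_nonneg fun _ _ => Nat.cast_nonneg _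
  have hyp : 0 ≤ ∏ i, (y i : ℝ) := prod_nonneg fun _ _ => Nat.cast_nonneg _
  have k1 := h1 x b1 z hz1 hz2 A hA y s hs (fun _ => 1) (fun n _ => by rw [abs_one]; exact hL1)
  have k2 := h2 x b2 A hA y s hs (fun _ => 1) (fun n _ => by rw [abs_one]; exact hL1)
  simp only [one_mul] at k1 k2
  -- the model
  have k3 : ∀ b ∈ bx A, ∀ m ∈ bx y, |∑ n ∈ Icc 1 x, ∏ j, lamzI z (vv F G (kv s b m) j n) - sgv F G z (kv s b m) * x| ≤
      2 * (x / L ^ (U + 2)) := by
    intro b hb m hm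
    have hk1 : ∀ i, 1 ≤ kv s b m i := fun i => (kv_cast hs hb hm i).2
    have e1 := h3 x b3 (aa (kv s b m)) (aa_pos hk1) z hz hz2
    simp only [one_mul] at e1
    have e2 := h4 (kv s b m) hk1 x
    have e3 : ∑ n ∈ Icc 1 x, ∏ j, lamzI z (vv F G (kv s b m) j n) - sgv F G z (kv s b m) * x =
        (∑ n ∈ Icc 1 x, ∏ j, lamzI z (vl (FF F G) (sg r) (aa (kv s b m)) j n) -
          ((Vz z)⁻¹) ^ (r + r) * (∏ p ∈ pz z, (1 - (nuB (sysQ (FF F G) (sg r) (aa (kv s b m))) p : ℝ) / p)) *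
            posCount (FF F G) (sg r) (aa (kv s b m)) x) +
        sgv F G z (kv s b m) * (posCount (FF F G) (sg r) (aa (kv s b m)) x - x) := by
      unfold sgv vv
      ring
    rw [e3]
    refine (abs_add_le _ _).trans ?_
    have e4 : |sgv F G z (kv s b m) * (posCount (FF F G) (sg r) (aa (kv s b m)) x - x)| ≤ x / L ^ (U + 2) := by
      rw [abs_mul, abs_of_nonneg (sgv_nonneg F G z _), le_div_iff₀ (by positivity)]
      have h8 : √(x : ℝ) ≤ x := by
        rw [Real.sqrt_le_left hx0.le]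
        nlinarith
      have h9 : (0 : ℝ) ≤ n4 := Nat.cast_nonneg _
      calc sgv F G z (kv s b m) * |(posCount (FF F G) (sg r) (aa (kv s b m)) x : ℝ) - x| * L ^ (U + 2)
          ≤ L ^ (r + r) * n4 * L ^ (U + 2) := by
            apply mul_le_mul_of_nonneg_right _ (by positivity)
            exact mul_le_mul (sgv_le F G z _ L hV) e2 (abs_nonneg _) (by positivity)
        _ = n4 * L ^ (r + r + (U + 2)) := by rw [pow_add L (r + r) (U + 2)]; ring
        _ ≤ (n4 + 1) * L ^ (r + r + (U + 2)) := by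
            apply mul_le_mul_of_nonneg_right _ (by positivity)
            linarith
        _ ≤ x := hsm.trans h8
    linarith
  have hpt : ∀ b ∈ bx A, |∑ m ∈ bx y, (∑ n ∈ Icc 1 x, ∏ j, lamP (vv F G (kv s b m) j n) - sgv F G z (kv s b m) * x)| ≤
      |∑ m ∈ bx y, ∑ n ∈ Icc 1 x, (∏ j, lamI (vv F G (kv s b m) j n) - ∏ j, lamzI z (vv F G (kv s b m) j n))| +
      ∑ m ∈ bx y, |∑ n ∈ Icc 1 x, (∏ j, lamI (vv F G (kv s b m) j n) - ∏ j, lamP (vv F G (kv s b m) j n))| +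
      (∏ i, (y i : ℝ)) * (2 * (x / L ^ (U + 2))) := by
    intro b hb
    have e1 : ∑ m ∈ bx y, (∑ n ∈ Icc 1 x, ∏ j, lamP (vv F G (kv s b m) j n) - sgv F G z (kv s b m) * x) =
        ∑ m ∈ bx y, ∑ n ∈ Icc 1 x, (∏ j, lamI (vv F G (kv s b m) j n) - ∏ j, lamzI z (vv F G (kv s b m) j n)) +
        (-∑ m ∈ bx y, ∑ n ∈ Icc 1 x, (∏ j, lamI (vv F G (kv s b m) j n) - ∏ j, lamP (vv F G (kv s b m) j n))) +
        ∑ m ∈ bx y, (∑ n ∈ Icc 1 x, ∏ j, lamzI z (vv F G (kv s b m) j n) - sgv F G z (kv s b m) * x) := by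
      rw [← sum_neg_distrib, ← sum_add_distrib, ← sum_add_distrib]
      apply sum_congr rfl
      intro m _
      rw [sum_sub_distrib, sum_sub_distrib]
      ring
    rw [e1]
    refine (abs_add_le _ _).trans (add_le_add ((abs_add_le _ _).trans (add_le_add le_rfl ?_)) ?_)
    · rw [abs_neg]
      exact abs_sum_le_sum_abs _ _
    · refine (abs_sum_le_sum_abs _ _).trans ((sum_le_sum fun m hm => k3 b hb m hm).trans (le_of_eq ?_))
      rw [sum_const, nsmul_eq_mul, card_bx]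
  refine (sum_le_sum hpt).trans ?_
  rw [sum_add_distrib, sum_add_distrib, sum_const, nsmul_eq_mul, card_bx]
  have e5 : (x : ℝ) * (∏ i, (A i : ℝ)) * (∏ i, (y i : ℝ)) / L ^ (U + 2) + x * (∏ i, (A i : ℝ)) * (∏ i, (y i : ℝ)) / L ^ (U + 2) +
      (∏ i, (A i : ℝ)) * ((∏ i, (y i : ℝ)) * (2 * (x / L ^ (U + 2)))) =
      (4 / (L * L)) * (x * (∏ i, (A i : ℝ)) * (∏ i, (y i : ℝ)) / L ^ U) := by
    rw [pow_add]
    field_simp
    ring
  refine (add_le_add (add_le_add k1 k2) le_rfl).trans ?_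
  rw [e5]
  apply mul_le_of_le_one_left (by positivity)
  rw [div_le_one (by positivity)]
  nlinarith

end Pool.Agent.Y871.PT
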