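import Mathlib
import Pool.Agent.Y871.PT.Six

/-! Several pairs: the unweighted theorem. -/

namespace Pool.Agent.Y871.PT
open Finset Polynomial
open Pool.Agent.H373R2.T7

lemma fin2 (δ T K P W e S : ℝ) (hδ : 0 < δ) (hδ1 : δ ≤ 1) (hT : 0 ≤ T) (hK : 1 ≤ K) (hP : 0 ≤ P) (h1 : |W - T| ≤ e)
    (h2 : W ≤ (1 + δ) * (K * P)) (h3 : K * P ≤ (1 + δ) * W + K * S) (hS : S ≤ e) :
    |P - T / K| ≤ δ * (T / K) + 3 * e := by
  have hK0 : 0 < K := by linarith
  have he : 0 ≤ e := (abs_nonneg _).trans h1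
  obtain ⟨h4, h5⟩ := abs_le.1 h1
  have heK : e / K ≤ e := div_le_self he hK
  rw [abs_le]
  constructor
  · have h6 : (1 - δ) * (T - e) ≤ K * P := by
      have h7 : T - e ≤ (1 + δ) * (K * P) := by linarith
      by_cases h8 : 0 ≤ T - e
      · have h9 : 0 ≤ K * P := by
          by_contra hc
          push Not at hc
          have : (1 + δ) * (K * P) < 0 := mul_neg_of_pos_of_neg (by linarith) hc
          linarith
        have h10 : (1 - δ) * (T - e) ≤ (1 - δ) * ((1 + δ) * (K * P)) := mul_le_mul_of_nonneg_left h7 (by linarith)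
        have h11 : (1 - δ) * ((1 + δ) * (K * P)) ≤ K * P := by nlinarith [mul_nonneg (sq_nonneg δ) h9]
        linarith
      · push Not at h8
        have h9 : (1 - δ) * (T - e) ≤ 0 := mul_nonpos_of_nonneg_of_nonpos (by linarith) h8.le
        have h10 : 0 ≤ K * P := mul_nonneg hK0.le hP
        linarith
    have h7 : (1 - δ) * (T - e) / K ≤ P := by
      rw [div_le_iff₀ hK0]
      linarith
    have h8 : (1 - δ) * (T - e) / K = T / K - δ * (T / K) - (1 - δ) * (e / K) := by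
      field_simp
    rw [h8] at h7
    have h9 : (1 - δ) * (e / K) ≤ e := by
      have : 0 ≤ e / K := by positivity
      nlinarith
    linarith
  · have h6 : K * P ≤ (1 + δ) * (T + e) + K * e := by
      have h7 : (1 + δ) * W ≤ (1 + δ) * (T + e) := mul_le_mul_of_nonneg_left (by linarith) (by linarith)
      have h8 : K * S ≤ K * e := mul_le_mul_of_nonneg_left hS hK0.le
      linarith
    have h7 : P ≤ ((1 + δ) * (T + e) + K * e) / K := by
      rw [le_div_iff₀ hK0]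
      linarith
    have h8 : ((1 + δ) * (T + e) + K * e) / K = T / K + δ * (T / K) + (1 + δ) * (e / K) + e := by
      field_simp
    rw [h8] at h7
    have h9 : (1 + δ) * (e / K) ≤ 2 * e := by
      have : 0 ≤ e / K := by positivity
      nlinarith
    linarith

/-- the degrees -/
noncomputable def dd {r : ℕ} (d : Fin r → ℕ) : Fin (r + r) → ℝ := Fin.append (fun i => (d i : ℝ)) (fun i => (d i : ℝ))

lemma prod_dd {r : ℕ} (d : Fin r → ℕ) : ∏ j, dd d j = ∏ i, (d i : ℝ) ^ 2 := by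
  unfold dd
  rw [Fin.prod_univ_add, ← prod_mul_distrib]
  apply prod_congr rfl
  intro i _
  rw [Fin.append_left, Fin.append_right]
  ring

/-- the thresholds -/
noncomputable def TT {r : ℕ} (d : Fin r → ℕ) (x : ℕ) (w : ℝ) : Fin (r + r) → ℝ :=
  Fin.append (fun i => (x : ℝ) ^ d i / w) (fun i => (x : ℝ) ^ d i / w)

lemma cnt_small (A : ℕ) (c : ℤ) (T : ℝ) (hT : 0 ≤ T) [DecidablePred fun v : ℕ => 1 ≤ (v : ℤ) + c ∧ (((v : ℤ) + c : ℤ) : ℝ) ≤ T] :
    ∑ v ∈ Icc 1 A, (if 1 ≤ (v : ℤ) + c ∧ (((v : ℤ) + c : ℤ) : ℝ) ≤ T then (1 : ℝ) else 0) ≤ T := by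
  rw [← sum_filter, sum_const, nsmul_eq_mul, mul_one]
  have h3 : ((Icc 1 A).filter (fun v : ℕ => 1 ≤ (v : ℤ) + c ∧ (((v : ℤ) + c : ℤ) : ℝ) ≤ T)).card ≤ ⌊T⌋₊ := by
    calc _ ≤ (Icc 1 ⌊T⌋₊).card := by
          apply card_le_card_of_injOn (fun v : ℕ => ((v : ℤ) + c).toNat)
          · intro v hv
            rw [mem_coe, mem_filter] at hv
            obtain ⟨_, h4, h5⟩ := hv
            have h6 : ((((v : ℤ) + c).toNat : ℕ) : ℝ) = (((v : ℤ) + c : ℤ) : ℝ) := by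
              have := Int.toNat_of_nonneg (show 0 ≤ (v : ℤ) + c by omega)
              have h7 : (((((v : ℤ) + c).toNat : ℕ) : ℤ) : ℝ) = (((v : ℤ) + c : ℤ) : ℝ) := by rw [this]
              exact_mod_cast h7
            have h8 : 1 ≤ ((v : ℤ) + c).toNat := by omega
            have h9 : ((v : ℤ) + c).toNat ≤ ⌊T⌋₊ := Nat.le_floor (by rw [h6]; exact h5)
            exact mem_coe.2 (mem_Icc.2 ⟨h8, h9⟩)
          · intro v hv v' hv' h
            rw [mem_coe, mem_filter] at hv hv'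
            have h4 := hv.2.1
            have h5 := hv'.2.1
            simp only at h
            omega
      _ = ⌊T⌋₊ := by rw [Nat.card_Icc]; omega
  exact (by exact_mod_cast h3 : _ ≤ ((⌊T⌋₊ : ℕ) : ℝ)).trans (Nat.floor_le hT)

lemma sm_sum {r : ℕ} (F G : Fin r → ℤ[X]) (d : Fin r → ℕ) (B : ℕ) (p : Fin r → ℕ) (C x : ℕ) (y : Fin r → ℕ) (s : Fin r → ℕ → ℤ) (hs : Fml d B p C x y s)
    (hx : 1 ≤ x) (A : Fin r → ℕ) (hA : ∀ i, A i ≤ B * x ^ d i ∧ x ^ d i ≤ B * A i) (w : ℝ) (hw : 0 < w) (m : Fin r → ℕ) (hm : m ∈ bx y) :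
    ∑ b ∈ bx A, smCount (FF F G) (sg r) x (TT d x w) (aa (kv s b m)) ≤ x * (2 * r * (B / w * ∏ i, (A i : ℝ))) := by
  classical
  have hA1 : ∀ i, 1 ≤ A i := A_pos hx hA
  unfold smCount
  rw [sum_comm]
  have h1 : ∀ n ∈ Icc 1 x, ∑ b ∈ bx A,
      (∑ j, if 1 ≤ vl (FF F G) (sg r) (aa (kv s b m)) j n ∧ ((vl (FF F G) (sg r) (aa (kv s b m)) j n : ℤ) : ℝ) ≤ TT d x w j then (1 : ℝ) else 0) ≤
      2 * r * (B / w * ∏ i, (A i : ℝ)) := by
    intro n _
    have hTi : ∀ i : Fin r, (x : ℝ) ^ d i / w ≤ B / w * A i := by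
      intro i
      rw [div_mul_eq_mul_div]
      apply div_le_div_of_nonneg_right _ hw.le
      exact_mod_cast (hA i).2
    have hT0 : ∀ i : Fin r, 0 ≤ (x : ℝ) ^ d i / w := fun i => by positivity
    have e0 : ∀ b ∈ bx A, (∑ j, if 1 ≤ vl (FF F G) (sg r) (aa (kv s b m)) j n ∧ ((vl (FF F G) (sg r) (aa (kv s b m)) j n : ℤ) : ℝ) ≤ TT d x w j then (1 : ℝ) else 0) =
        ∑ i, ((if 1 ≤ (b i : ℤ) + (s i (m i) + (F i).eval (n : ℤ)) ∧ (((b i : ℤ) + (s i (m i) + (F i).eval (n : ℤ)) : ℤ) : ℝ) ≤ (x : ℝ) ^ d i / w then (1 : ℝ) else 0) +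
          (if 1 ≤ (b i : ℤ) + (s i (m i) + (G i).eval (n : ℤ)) ∧ (((b i : ℤ) + (s i (m i) + (G i).eval (n : ℤ)) : ℤ) : ℝ) ≤ (x : ℝ) ^ d i / w then (1 : ℝ) else 0)) := by
      intro b hb
      rw [Fin.sum_univ_add, sum_add_distrib]
      congr 1
      · apply sum_congr rfl
        intro i _
        have h2 := vv_left F G (kv s b m) i n
        unfold vv at h2
        rw [h2, (kv_cast hs hb hm i).1]
        unfold TT
        rw [Fin.append_left, add_assoc]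
      · apply sum_congr rfl
        intro i _
        have h2 := vv_right F G (kv s b m) i n
        unfold vv at h2
        rw [h2, (kv_cast hs hb hm i).1]
        unfold TT
        rw [Fin.append_right, add_assoc]
    rw [sum_congr rfl e0, sum_comm]
    have h2 : ∀ i ∈ (univ : Finset (Fin r)), ∑ b ∈ bx A, ((if 1 ≤ (b i : ℤ) + (s i (m i) + (F i).eval (n : ℤ)) ∧ (((b i : ℤ) + (s i (m i) + (F i).eval (n : ℤ)) : ℤ) : ℝ) ≤ (x : ℝ) ^ d i / w then (1 : ℝ) else 0) +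
          (if 1 ≤ (b i : ℤ) + (s i (m i) + (G i).eval (n : ℤ)) ∧ (((b i : ℤ) + (s i (m i) + (G i).eval (n : ℤ)) : ℤ) : ℝ) ≤ (x : ℝ) ^ d i / w then (1 : ℝ) else 0)) ≤
          (2 * (B / w)) * ∏ i, (A i : ℝ) := by
      intro i _
      apply sum_coord A hA1 i (fun v => (if 1 ≤ (v : ℤ) + (s i (m i) + (F i).eval (n : ℤ)) ∧ (((v : ℤ) + (s i (m i) + (F i).eval (n : ℤ)) : ℤ) : ℝ) ≤ (x : ℝ) ^ d i / w then (1 : ℝ) else 0) +
          (if 1 ≤ (v : ℤ) + (s i (m i) + (G i).eval (n : ℤ)) ∧ (((v : ℤ) + (s i (m i) + (G i).eval (n : ℤ)) : ℤ) : ℝ) ≤ (x : ℝ) ^ d i / w then (1 : ℝ) else 0))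
      rw [sum_add_distrib]
      have h3 := cnt_small (A i) (s i (m i) + (F i).eval (n : ℤ)) ((x : ℝ) ^ d i / w) (hT0 i)
      have h4 := cnt_small (A i) (s i (m i) + (G i).eval (n : ℤ)) ((x : ℝ) ^ d i / w) (hT0 i)
      have h5 := hTi i
      linarith
    refine (sum_le_sum h2).trans (le_of_eq ?_)
    rw [sum_const, card_univ, Fintype.card_fin, nsmul_eq_mul]
    ring
  refine (sum_le_sum h1).trans (le_of_eq ?_)
  rw [sum_const, nsmul_eq_mul, Nat.card_Icc, Nat.add_sub_cancel]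

end Pool.Agent.Y871.PT
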