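import Mathlib
import Pool.Agent.Y871.PT.Seven

/-! Several pairs: the unweighted theorem. -/

namespace Pool.Agent.Y871.PT
open Finset Polynomial
open Pool.Agent.H373R2.T7

/-- the average of the numbers of prime values is as predicted -/
def GoodB {r : ℕ} (F G : Fin r → ℤ[X]) (d : Fin r → ℕ) (y : Fin r → ℕ) (s : Fin r → ℕ → ℤ) (x z U : ℕ) (ε : ℝ) (b : Fin r → ℕ) : Prop :=
  |(∑ m ∈ bx y, (prCount (FF F G) (sg r) (aa (kv s b m)) x : ℝ)) -
      (∑ m ∈ bx y, sgv F G z (kv s b m)) * x / ((∏ i, (d i : ℝ) ^ 2) * Real.log x ^ (r + r))| ≤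
    ε * ((∑ m ∈ bx y, sgv F G z (kv s b m)) * x / ((∏ i, (d i : ℝ) ^ 2) * Real.log x ^ (r + r))) +
      x * (∏ i, (y i : ℝ)) / Real.log x ^ U

open Classical in
set_option maxHeartbeats 1000000 in
theorem multi_final {r : ℕ} (F G : Fin r → ℤ[X]) (d : Fin r → ℕ) (hD : Dat F G d) (B : ℕ) (hB : 1 ≤ B) (p : Fin r → ℕ) (C U : ℕ)
    (ε : ℝ) (hε : 0 < ε) :
    ∃ B0 : ℕ, ∀ E : ℕ, ∃ N0 : ℕ, ∀ x : ℕ, N0 ≤ x → ∀ z : ℕ, Real.log x ^ B0 ≤ z → (z : ℝ) ≤ Real.log x ^ E →
    ∀ A : Fin r → ℕ, (∀ i, A i ≤ B * x ^ d i ∧ x ^ d i ≤ B * A i) →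
    ∀ (y : Fin r → ℕ) (s : Fin r → ℕ → ℤ), Fml d B p C x y s →
    (((bx A).filter (fun b => ¬ GoodB F G d y s x z U ε b)).card : ℝ) ≤ (∏ i, (A i : ℝ)) / Real.log x ^ U := by
  set δ : ℝ := min ε 1 with hδd
  have hδ : 0 < δ := by rw [hδd]; positivity
  have hδ1 : δ ≤ 1 := min_le_right _ _
  have hδε : δ ≤ ε := min_le_left _ _
  obtain ⟨η, hη, hη2, e1, e2⟩ := small_par (r + r) δ hδ hδ1
  set U' : ℕ := U + 1 with hU'
  set U2 : ℕ := U' + U + 2 with hU2
  obtain ⟨B0, h0⟩ := multi_W F G d hD B hB p C (U' + U + 1)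
  refine ⟨B0, fun E => ?_⟩
  obtain ⟨n1, h1⟩ := h0 E
  obtain ⟨n2, h2⟩ := ev_loglog U2 η hη
  obtain ⟨n3, h3⟩ := ev_L' (3 + Real.log (cs F G B) / η + 2 * r * B)
  refine ⟨max (max n1 n2) (max n3 3), fun x hx z hz1 hz2 A hA y s hs => ?_⟩
  have b1 := le_trans (le_trans (le_max_left _ _) (le_max_left _ _)) hx
  have b2 := le_trans (le_trans (le_max_right _ _) (le_max_left _ _)) hx
  have b3 := le_trans (le_trans (le_max_left _ _) (le_max_right _ _)) hx
  have hx3 : 3 ≤ x := le_trans (le_trans (le_max_right _ _) (le_max_right _ _)) hx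
  have hxr : (3 : ℝ) ≤ x := by exact_mod_cast hx3
  have hx0 : (0 : ℝ) < x := by linarith
  have hL := h3 x b3
  have hll := h2 x b2
  set L := Real.log x with hLd
  have hcn : 1 ≤ cs F G B := by unfold cs; omega
  have hcr : (1 : ℝ) ≤ cs F G B := by exact_mod_cast hcn
  have hlc : 0 ≤ Real.log (cs F G B) := Real.log_nonneg hcr
  have hBr : (1 : ℝ) ≤ B := by exact_mod_cast hB
  have hq1 : 0 ≤ Real.log (cs F G B) / η := by positivity
  have hq2 : 0 ≤ 2 * (r : ℝ) * B := by positivity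
  have hL3 : 3 ≤ L := by linarith
  have hL1 : 1 ≤ L := by linarith
  have hL0 : 0 < L := by linarith
  have hLc : Real.log (cs F G B) ≤ η * L := by
    have : Real.log (cs F G B) / η ≤ L := by linarith
    rw [div_le_iff₀ hη] at this
    linarith
  have hLb : 2 * (r : ℝ) * B ≤ L := by linarith
  have hd1 : ∀ i, 1 ≤ d i := fun i => (hD.dF i).trans (hD.leF i)
  have hd1r : ∀ i, (1 : ℝ) ≤ d i := fun i => by exact_mod_cast hd1 i
  have hA1 : ∀ i, 1 ≤ A i := A_pos (by omega) hA
  have hAp : 0 < ∏ i, (A i : ℝ) := prod_pos fun i _ => by exact_mod_cast hA1 i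
  have hyp : 0 < ∏ i, (y i : ℝ) := prod_pos fun i _ => by exact_mod_cast hs.y1 i
  set e : ℝ := x * (∏ i, (y i : ℝ)) / L ^ U' with he
  have he0 : 0 < e := by positivity
  set Wf : (Fin r → ℕ) → ℝ := fun b => |∑ m ∈ bx y, (∑ n ∈ Icc 1 x, ∏ j, lamP (vv F G (kv s b m) j n) - sgv F G z (kv s b m) * x)| with hWf
  set Sf : (Fin r → ℕ) → ℝ := fun b => ∑ m ∈ bx y, smCount (FF F G) (sg r) x (TT d x (L ^ U2)) (aa (kv s b m)) with hSf
  have k1 := h1 x b1 z hz1 hz2 A hA y s hs
  have k2 : ∑ b ∈ bx A, Sf b ≤ e * ((∏ i, (A i : ℝ)) / L ^ (U + 1)) := by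
    rw [hSf]
    simp only
    rw [sum_comm]
    have h5 : ∀ m ∈ bx y, ∑ b ∈ bx A, smCount (FF F G) (sg r) x (TT d x (L ^ U2)) (aa (kv s b m)) ≤
        x * (2 * r * (B / L ^ U2 * ∏ i, (A i : ℝ))) := fun m hm =>
      sm_sum F G d B p C x y s hs (by omega) A hA (L ^ U2) (by positivity) m hm
    refine (sum_le_sum h5).trans ?_
    rw [sum_const, nsmul_eq_mul, card_bx, he]
    have h6 : (∏ i, (y i : ℝ)) * (x * (2 * r * (B / L ^ U2 * ∏ i, (A i : ℝ)))) =
        (2 * r * B / L) * (x * (∏ i, (y i : ℝ)) / L ^ U' * ((∏ i, (A i : ℝ)) / L ^ (U + 1))) := by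
      rw [hU2, show U' + U + 2 = U' + (U + 1) + 1 by ring, pow_add L (U' + (U + 1)) 1, pow_add L U' (U + 1)]
      field_simp
    rw [h6]
    apply mul_le_of_le_one_left (by positivity)
    rw [div_le_one hL0]
    exact hLb
  have m1 := markov (bx A) Wf (fun _ _ => abs_nonneg _) e ((∏ i, (A i : ℝ)) / L ^ (U + 1)) he0 (by
    refine k1.trans (le_of_eq ?_)
    rw [he, show U' + U + 1 = U' + (U + 1) by ring, pow_add L U' (U + 1)]
    field_simp)
  have hSf0 : ∀ b, 0 ≤ Sf b := by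
    intro b
    rw [hSf]
    apply sum_nonneg
    intro m _
    unfold smCount
    apply sum_nonneg
    intro n _
    apply sum_nonneg
    intro j _
    split_ifs <;> norm_num
  have m2 := markov (bx A) Sf (fun b _ => hSf0 b) e ((∏ i, (A i : ℝ)) / L ^ (U + 1)) he0 k2
  have hsub : (bx A).filter (fun b => ¬ GoodB F G d y s x z U ε b) ⊆
      (bx A).filter (fun b => e < Wf b) ∪ (bx A).filter (fun b => e < Sf b) := by
    intro b hb
    rw [mem_filter] at hb
    rw [mem_union, mem_filter, mem_filter]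
    by_contra hcon
    push Not at hcon
    have g1 := hcon.1 hb.1
    have g2 := hcon.2 hb.1
    apply hb.2
    have hbA := Fintype.mem_piFinset.1 hb.1
    set K : ℝ := (∏ j, dd d j) * L ^ (r + r) with hK
    have hdp : 1 ≤ ∏ j, dd d j := by
      rw [prod_dd]
      have : ∀ i ∈ (univ : Finset (Fin r)), (1 : ℝ) ≤ (d i : ℝ) ^ 2 := fun i _ => one_le_pow₀ (hd1r i)
      calc (1 : ℝ) = ∏ _i : Fin r, 1 := by rw [prod_const_one]
        _ ≤ _ := prod_le_prod (fun _ _ => zero_le_one) this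
    have hK1 : 1 ≤ K := by
      have : 1 ≤ L ^ (r + r) := one_le_pow₀ hL1
      rw [hK]
      nlinarith
    have hdd0 : ∀ j, 0 < dd d j := by
      intro j
      unfold dd
      refine Fin.addCases (fun i => ?_) (fun i => ?_) j
      · rw [Fin.append_left]; have := hd1r i; linarith
      · rw [Fin.append_right]; have := hd1r i; linarith
    have hup0 : ∀ i : Fin r, ∀ w : ℤ, 1 ≤ w → w ≤ ((cs F G B * x ^ d i : ℕ) : ℤ) → Real.log (w : ℝ) ≤ (d i : ℝ) * L * (1 + η) := by
      intro i w hw1 hw2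
      have h6 : (w : ℝ) ≤ cs F G B * (x : ℝ) ^ d i := by
        have h8 : (w : ℝ) ≤ (((cs F G B * x ^ d i : ℕ) : ℤ) : ℝ) := by exact_mod_cast hw2
        push_cast at h8
        exact h8
      have h7 : (0 : ℝ) < (w : ℝ) := by exact_mod_cast (by omega : 0 < w)
      have h8 := Real.log_le_log h7 h6
      rw [Real.log_mul (by linarith) (by positivity), Real.log_pow] at h8
      have h9 : η * L ≤ d i * (η * L) := le_mul_of_one_le_left (by positivity) (hd1r i)
      calc Real.log (w : ℝ) ≤ Real.log (cs F G B) + d i * Real.log x := h8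
        _ ≤ d i * (η * L) + d i * L := by
            have h10 : (d i : ℝ) * Real.log x = d i * L := rfl
            rw [h10]; linarith
        _ = _ := by ring
    have hlo0 : ∀ i : Fin r, ∀ w : ℤ, (x : ℝ) ^ d i / L ^ U2 < (w : ℝ) → (d i : ℝ) * L * (1 - η) ≤ Real.log (w : ℝ) := by
      intro i w hw
      have hT0 : 0 < (x : ℝ) ^ d i / L ^ U2 := by positivity
      have h5 := Real.log_le_log hT0 hw.le
      rw [Real.log_div (by positivity) (by positivity), Real.log_pow, Real.log_pow] at h5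
      have h9 : η * L ≤ d i * (η * L) := le_mul_of_one_le_left (by positivity) (hd1r i)
      have h10 : (d i : ℝ) * Real.log x = d i * L := rfl
      rw [h10] at h5
      calc (d i : ℝ) * L * (1 - η) = d i * L - d i * (η * L) := by ring
        _ ≤ d i * L - U2 * Real.log L := by linarith
        _ ≤ _ := h5
    have hcmp : ∀ m ∈ bx y, ∑ n ∈ Icc 1 x, (1 : ℝ) * ∏ j, lamP (vl (FF F G) (sg r) (aa (kv s b m)) j n) ≤
          (1 + δ) * (K * prCount (FF F G) (sg r) (aa (kv s b m)) x) ∧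
        K * prCount (FF F G) (sg r) (aa (kv s b m)) x ≤
          (1 + δ) * ∑ n ∈ Icc 1 x, (1 : ℝ) * ∏ j, lamP (vl (FF F G) (sg r) (aa (kv s b m)) j n) +
            K * smCount (FF F G) (sg r) x (TT d x (L ^ U2)) (aa (kv s b m)) := by
      intro m hm
      have hm' := Fintype.mem_piFinset.1 hm
      apply compare (FF F G) (sg r) (aa (kv s b m)) x (dd d) hdd0 L η δ hL1 hη hη2 hδ.le e1 e2
      · intro n hn j
        refine Fin.addCases (fun i => ?_) (fun i => ?_) j
        · intro hv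
          have h5 := vv_left F G (kv s b m) i n
          unfold vv at h5
          rw [h5, (kv_cast hs hb.1 hm i).1] at hv ⊢
          unfold dd
          rw [Fin.append_left]
          exact hup0 i _ hv (val_le F G d hD B x i (b i) (s i (m i)) n hn ((mem_Icc.1 (hbA i)).2.trans (hA i).1) (hs.s0 i _ (hm' i)).2).1
        · intro hv
          have h5 := vv_right F G (kv s b m) i n
          unfold vv at h5
          rw [h5, (kv_cast hs hb.1 hm i).1] at hv ⊢
          unfold dd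
          rw [Fin.append_right]
          exact hup0 i _ hv (val_le F G d hD B x i (b i) (s i (m i)) n hn ((mem_Icc.1 (hbA i)).2.trans (hA i).1) (hs.s0 i _ (hm' i)).2).2
      · intro n hn j
        refine Fin.addCases (fun i => ?_) (fun i => ?_) j
        · intro hv
          unfold TT at hv
          unfold dd
          rw [Fin.append_left] at hv ⊢
          exact hlo0 i _ hv
        · intro hv
          unfold TT at hv
          unfold dd
          rw [Fin.append_right] at hv ⊢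
          exact hlo0 i _ hv
    have hc1 := sum_le_sum fun m hm => (hcmp m hm).1
    have hc2 := sum_le_sum fun m hm => (hcmp m hm).2
    simp only [one_mul] at hc1 hc2
    rw [← mul_sum, ← mul_sum] at hc1
    rw [sum_add_distrib, ← mul_sum, ← mul_sum, ← mul_sum] at hc2
    have hT0 : 0 ≤ (∑ m ∈ bx y, sgv F G z (kv s b m)) * x :=
      mul_nonneg (sum_nonneg fun m _ => sgv_nonneg F G z _) hx0.le
    have hfin := fin2 δ ((∑ m ∈ bx y, sgv F G z (kv s b m)) * x) K
      (∑ m ∈ bx y, (prCount (FF F G) (sg r) (aa (kv s b m)) x : ℝ))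
      (∑ m ∈ bx y, ∑ n ∈ Icc 1 x, ∏ j, lamP (vl (FF F G) (sg r) (aa (kv s b m)) j n)) e
      (∑ m ∈ bx y, smCount (FF F G) (sg r) x (TT d x (L ^ U2)) (aa (kv s b m))) hδ hδ1 hT0 hK1
      (sum_nonneg fun m _ => Nat.cast_nonneg _) (by
        have h5 : (∑ m ∈ bx y, ∑ n ∈ Icc 1 x, ∏ j, lamP (vl (FF F G) (sg r) (aa (kv s b m)) j n)) -
            (∑ m ∈ bx y, sgv F G z (kv s b m)) * x =
            ∑ m ∈ bx y, (∑ n ∈ Icc 1 x, ∏ j, lamP (vv F G (kv s b m) j n) - sgv F G z (kv s b m) * x) := by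
          rw [sum_sub_distrib, sum_mul]
          rfl
        rw [h5]
        exact g1) hc1 hc2 g2
    unfold GoodB
    have hKe : K = (∏ i, (d i : ℝ) ^ 2) * Real.log x ^ (r + r) := by rw [hK, prod_dd]
    rw [← hKe]
    refine hfin.trans ?_
    have hTK : 0 ≤ (∑ m ∈ bx y, sgv F G z (kv s b m)) * x / K := div_nonneg hT0 (by linarith)
    have h7 : 3 * e ≤ x * (∏ i, (y i : ℝ)) / L ^ U := by
      have h8 : 3 * e = (3 / L) * (x * (∏ i, (y i : ℝ)) / L ^ U) := by
        rw [he, hU', pow_succ]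
        field_simp
      rw [h8]
      apply mul_le_of_le_one_left (by positivity)
      rw [div_le_one hL0]
      exact hL3
    have h9 := mul_le_mul_of_nonneg_right hδε hTK
    linarith
  have hcard : (((bx A).filter (fun b => ¬ GoodB F G d y s x z U ε b)).card : ℝ) ≤
      ((bx A).filter (fun b => e < Wf b)).card + ((bx A).filter (fun b => e < Sf b)).card := by
    exact_mod_cast (card_le_card hsub).trans (card_union_le _ _)
  refine hcard.trans ((add_le_add m1 m2).trans ?_)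
  have h10 : (∏ i, (A i : ℝ)) / L ^ (U + 1) + (∏ i, (A i : ℝ)) / L ^ (U + 1) = (2 / L) * ((∏ i, (A i : ℝ)) / L ^ U) := by
    rw [pow_succ]
    field_simp
    norm_num
  rw [h10]
  apply mul_le_of_le_one_left (by positivity)
  rw [div_le_one hL0]
  linarith

end Pool.Agent.Y871.PT
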