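import Mathlib
import Pool.Agent.Y871.PT.Eight

/-! Several pairs: conversions, and polynomial families. -/

namespace Pool.Agent.Y871.PT
open Finset Polynomial
open Pool.Agent.H373R2.T7

lemma vv_iff {r : ℕ} (F G : Fin r → ℤ[X]) (k : Fin r → ℕ) (n : ℕ) (φ : ℤ → Prop) :
    (∀ j, φ (vl (FF F G) (sg r) (aa k) j n)) ↔ ∀ i, φ ((F i).eval (n : ℤ) + k i) ∧ φ ((G i).eval (n : ℤ) + k i) := by
  constructor
  · intro h i
    have h1 := h (Fin.castAdd r i)
    have h2 := h (Fin.natAdd r i)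
    have e1 := vv_left F G k i n
    have e2 := vv_right F G k i n
    unfold vv at e1 e2
    rw [e1] at h1
    rw [e2] at h2
    rw [add_comm, add_comm ((G i).eval _)]
    exact ⟨h1, h2⟩
  · intro h j
    refine Fin.addCases (fun i => ?_) (fun i => ?_) j
    · have e1 := vv_left F G k i n
      unfold vv at e1
      rw [e1, add_comm]
      exact (h i).1
    · have e2 := vv_right F G k i n
      unfold vv at e2
      rw [e2, add_comm]
      exact (h i).2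

lemma prCount_eq {r : ℕ} (F G : Fin r → ℤ[X]) (k : Fin r → ℕ) (x : ℕ) :
    prCount (FF F G) (sg r) (aa k) x = ((Icc 1 x).filter (fun n : ℕ => ∀ i, ((F i).eval (n : ℤ) + k i).toNat.Prime ∧
      ((G i).eval (n : ℤ) + k i).toNat.Prime)).card := by
  unfold prCount
  apply congrArg
  ext n
  simp only [mem_filter]
  rw [vv_iff F G k n (fun w => w.toNat.Prime)]

lemma nuB_eq {r : ℕ} (F G : Fin r → ℤ[X]) (k : Fin r → ℕ) (p : ℕ) (hp : p.Prime) :
    nuB (sysQ (FF F G) (sg r) (aa k)) p = ((range p).filter (fun n : ℕ => (p : ℤ) ∣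
      ∏ i, ((F i).eval (n : ℤ) + k i) * ((G i).eval (n : ℤ) + k i))).card := by
  classical
  unfold nuB
  apply congrArg
  ext n
  simp only [mem_filter]
  apply and_congr_right
  intro _
  have h1 := (Nat.prime_iff_prime_int.1 hp).dvd_finsetProd_iff (S := (univ : Finset (Fin r)))
    (fun i => ((F i).eval (n : ℤ) + k i) * ((G i).eval (n : ℤ) + k i))
  rw [h1]
  have h2 := vv_iff F G k n (fun w => ¬ (p : ℤ) ∣ w)
  unfold sysQ
  rw [← not_iff_not]
  push Not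
  rw [h2]
  constructor
  · intro h i _ h3
    rcases (Nat.prime_iff_prime_int.1 hp).dvd_or_dvd h3 with h4 | h4
    · exact (h i).1 h4
    · exact (h i).2 h4
  · intro h i
    exact ⟨fun h3 => h i (mem_univ _) (dvd_mul_of_dvd_left h3 _), fun h3 => h i (mem_univ _) (dvd_mul_of_dvd_right h3 _)⟩

lemma sgv_eq {r : ℕ} (F G : Fin r → ℤ[X]) (z : ℕ) (k : Fin r → ℕ) :
    sgv F G z k = ∏ p ∈ (Icc 1 z).filter Nat.Prime, (1 - (((range p).filter (fun n : ℕ => (p : ℤ) ∣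
      ∏ i, ((F i).eval (n : ℤ) + k i) * ((G i).eval (n : ℤ) + k i))).card : ℝ) / p) / (1 - 1 / (p : ℝ)) ^ (2 * r) := by
  unfold sgv Vz
  rw [prod_div_distrib, prod_pow, show 2 * r = r + r from two_mul r, inv_pow, mul_comm, div_eq_mul_inv]
  congr 1
  apply prod_congr rfl
  intro p hp
  rw [nuB_eq F G k p (mem_pz.1 hp).2]

open Classical in
/-- polynomial families -/
theorem multi_poly {r : ℕ} (F G S : Fin r → ℤ[X]) (d : Fin r → ℕ) (hD : Dat F G d)
    (hS : ∀ i, 1 ≤ (S i).natDegree) (hSl : ∀ i, 0 < (S i).leadingCoeff)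
    (hS0 : ∀ i, ∀ m : ℕ, 1 ≤ m → 0 ≤ (S i).eval (m : ℤ)) (B : ℕ) (hB : 1 ≤ B) (U : ℕ) (ε : ℝ) (hε : 0 < ε) :
    ∃ B0 : ℕ, ∀ E : ℕ, ∃ N0 : ℕ, ∀ x : ℕ, N0 ≤ x → ∀ z : ℕ, Real.log x ^ B0 ≤ z → (z : ℝ) ≤ Real.log x ^ E →
    ∀ A : Fin r → ℕ, (∀ i, A i ≤ B * x ^ d i ∧ x ^ d i ≤ B * A i) →
    ∀ y : Fin r → ℕ, (∀ i, y i ^ (S i).natDegree ≤ B * x ^ d i ∧ x ^ d i ≤ B * y i ^ (S i).natDegree) →
    (((bx A).filter (fun b => ¬ GoodB F G d y (fun i m => (S i).eval (m : ℤ)) x z U ε b)).card : ℝ) ≤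
      (∏ i, (A i : ℝ)) / Real.log x ^ U := by
  choose p Ce hCe hen using fun i => energy_poly (S i) (hS i) (hSl i)
  set B1 : ℕ := B * (1 + univ.sup (fun i => cf (S i))) with hB1
  have hBB1 : B ≤ B1 := Nat.le_mul_of_pos_right _ (by omega)
  obtain ⟨B0, h0⟩ := multi_final F G d hD B1 (by omega) p 1 U ε hε
  refine ⟨B0, fun E => ?_⟩
  obtain ⟨N0, h1⟩ := h0 E
  obtain ⟨N1, h2⟩ := ev_L' (B * ∑ i, Ce i)
  refine ⟨max (max N0 N1) 1, fun x hx z hz1 hz2 A hA y hy => ?_⟩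
  have b0 := le_trans (le_trans (le_max_left _ _) (le_max_left _ _)) hx
  have b1 := le_trans (le_trans (le_max_right _ _) (le_max_left _ _)) hx
  have hx1 : 1 ≤ x := le_trans (le_max_right _ _) hx
  have hL := h2 x b1
  have hy1 : ∀ i, 1 ≤ y i := by
    intro i
    rcases Nat.eq_zero_or_pos (y i) with h | h
    · have h4 := (hy i).2
      rw [h, zero_pow (by have := hS i; omega), mul_zero] at h4
      have : 1 ≤ x ^ d i := Nat.one_le_pow _ _ (by omega)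
      omega
    · exact h
  refine h1 x b0 z hz1 hz2 A (fun i => ⟨(hA i).1.trans (Nat.mul_le_mul_right _ hBB1), (hA i).2.trans (Nat.mul_le_mul_right _ hBB1)⟩) y
    (fun i m => (S i).eval (m : ℤ)) ⟨hy1, ?_, ?_⟩
  · intro i m hm
    rw [mem_Icc] at hm
    refine ⟨hS0 i m hm.1, ?_⟩
    have h3 := (le_abs_self _).trans (abs_eval_le (S i) m hm.1)
    have h4 : cf (S i) * m ^ (S i).natDegree ≤ B1 * x ^ d i := by
      calc cf (S i) * m ^ (S i).natDegree ≤ (1 + univ.sup (fun i => cf (S i))) * (B * x ^ d i) := by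
            apply Nat.mul_le_mul
            · exact (le_sup (f := fun i => cf (S i)) (mem_univ i)).trans (by omega)
            · exact (Nat.pow_le_pow_left hm.2 _).trans (hy i).1
        _ = B1 * x ^ d i := by rw [hB1]; ring
    have h5 : ((cf (S i) * m ^ (S i).natDegree : ℕ) : ℤ) ≤ ((B1 * x ^ d i : ℕ) : ℤ) := by exact_mod_cast h4
    have h6 : ((cf (S i) * m ^ (S i).natDegree : ℕ) : ℤ) = (cf (S i) : ℤ) * (m : ℤ) ^ (S i).natDegree := by push_cast; ring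
    linarith
  · intro i
    have h3 := hen i (y i) (hy1 i)
    have h4 : (x : ℝ) ^ d i ≤ B * (y i : ℝ) ^ (S i).natDegree := by exact_mod_cast (hy i).2
    have h5 : Ce i ≤ ∑ i, Ce i := single_le_sum (f := Ce) (fun i _ => (hCe i).le) (mem_univ i)
    rw [pow_one]
    calc (energy (p i) (y i) (fun m => (S i).eval (m : ℤ)) : ℝ) * (x : ℝ) ^ d i
        ≤ (energy (p i) (y i) (fun m => (S i).eval (m : ℤ)) : ℝ) * (B * (y i : ℝ) ^ (S i).natDegree) :=
          mul_le_mul_of_nonneg_left h4 (Nat.cast_nonneg _)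
      _ = B * ((energy (p i) (y i) (fun m => (S i).eval (m : ℤ)) : ℝ) * (y i : ℝ) ^ (S i).natDegree) := by ring
      _ ≤ B * (Ce i * (y i : ℝ) ^ (2 * p i)) := mul_le_mul_of_nonneg_left h3 (Nat.cast_nonneg _)
      _ ≤ B * ((∑ i, Ce i) * (y i : ℝ) ^ (2 * p i)) := by
          apply mul_le_mul_of_nonneg_left _ (Nat.cast_nonneg _)
          exact mul_le_mul_of_nonneg_right h5 (by positivity)
      _ = (B * ∑ i, Ce i) * (y i : ℝ) ^ (2 * p i) := by ring
      _ ≤ Real.log x * (y i : ℝ) ^ (2 * p i) := mul_le_mul_of_nonneg_right hL (by positivity)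

/-- the truncation parameter -/
lemma z_ok (B0 E : ℕ) (hE : B0 + 1 ≤ E) : ∃ N : ℕ, ∀ x : ℕ, N ≤ x →
    Real.log x ^ B0 ≤ (⌊Real.log x ^ E⌋₊ : ℝ) ∧ ((⌊Real.log x ^ E⌋₊ : ℕ) : ℝ) ≤ Real.log x ^ E := by
  obtain ⟨N, hN⟩ := ev_L' 2
  refine ⟨N, fun x hx => ?_⟩
  have hL := hN x hx
  set L := Real.log x with hLd
  have hL1 : 1 ≤ L := by linarith
  refine ⟨?_, Nat.floor_le (by positivity)⟩
  have h1 := Nat.sub_one_lt_floor (L ^ E)
  have h2 : L ^ (B0 + 1) ≤ L ^ E := pow_le_pow_right₀ hL1 hE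
  have h3 : 1 ≤ L ^ B0 := one_le_pow₀ hL1
  have h4 : L ^ (B0 + 1) = L * L ^ B0 := by ring
  nlinarith

end Pool.Agent.Y871.PT
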